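import Pool.Agent.Lib.MP_b347ba_lc_h74.WordP
import Pool.Agent.Lib.MP_b347ba_lc_h71.Code

/-!
# The word of the rotation system of a formula
-/

namespace Pool.Agent.Lib.MP_b347ba_lc_h74

set_option linter.unusedSectionVars false
set_option linter.unusedSimpArgs false

open Function Pool.MP_b347ba_lc
open Pool.Agent.Lib.MP_75fd85_lc (flatMap_fin)

variable {n m : ℕ}

/-- The inner vertex with given kind and indices. -/
def vx (c c' : Fin m) (k : Fin n) (b : Bool) : VK → Vx n m
  | .wa => .wa c c' (k, b)
  | .wb => .wb c c' (k, b)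
  | .z2 => .z2
  | .t => .t c c' (k, b)
  | .mm => .mm c c' (k, b)
  | .s => .s c (k, b)
  | .r => .r c (k, b)
  | .z1 => .z1
  | .ua => .ua c (k, b)
  | .ub => .ub c (k, b)

/-- Number of a literal. -/
def ln (q : Lit n) : ℕ := 2 * q.1.val + q.2.toNat

theorem ln_lt (q : Lit n) : ln q < 2 * n := by
  have := q.1.isLt
  have := q.2.toNat_le
  unfold ln; omega

/-- Numbers of the inner vertices. -/
def pos : Vx n m → ℕ
  | .wa c c' q => base m n .wa + (c.val * (m * (2 * n)) + (c'.val * (2 * n) + ln q))
  | .wb c c' q => base m n .wb + (c.val * (m * (2 * n)) + (c'.val * (2 * n) + ln q))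
  | .z2 => base m n .z2 + 0
  | .t c c' q => base m n .t + (c.val * (m * (2 * n)) + (c'.val * (2 * n) + ln q))
  | .mm c c' q => base m n .mm + (c.val * (m * (2 * n)) + (c'.val * (2 * n) + ln q))
  | .s c q => base m n .s + (c.val * (2 * n) + ln q)
  | .r c q => base m n .r + (c.val * (2 * n) + ln q)
  | .z1 => base m n .z1 + 0
  | .ua c q => base m n .ua + (c.val * (2 * n) + ln q)
  | .ub c q => base m n .ub + (c.val * (2 * n) + ln q)

/-! ### The order of the vertices -/

theorem lits_ln : (lits n).map ln = List.range (2 * n) := by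
  unfold lits
  rw [List.map_flatMap]
  have h : ∀ n', ((List.range n').flatMap fun k => [2 * k, 2 * k + 1]) = List.range (2 * n') := by
    intro n'
    induction n' with
    | zero => rfl
    | succ n' ih =>
      rw [List.range_succ, List.flatMap_append, ih, show 2 * (n' + 1) = 2 * n' + 1 + 1 by ring,
        List.range_succ, List.range_succ]
      simp
  rw [← h]
  symm
  exact flatMap_fin n _ _ fun k => by simp [ln]

theorem length_lits : (lits n).length = 2 * n := by
  have := congrArg List.length (lits_ln (n := n))
  simpa using this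

theorem map_fin {α : Type} (n : ℕ) (f : Fin n → α) (f' : ℕ → α) (h : ∀ k : Fin n, f' k.val = f k) :
    (List.finRange n).map f = (List.range n).map f' := by
  have h1 : List.range n = (List.finRange n).map (fun k => k.val) := by
    apply List.ext_getElem <;> simp
  rw [h1, List.map_map]
  exact List.map_congr_left fun k _ => (h k).symm

theorem flatMap_range_add (a b m : ℕ) :
    ((List.range m).flatMap fun c => (List.range b).map fun i => a + (c * b + i)) =
      (List.range (m * b)).map fun i => a + i := by
  induction m with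
  | zero => simp
  | succ m ih =>
    rw [List.range_succ, List.flatMap_append, ih, Nat.succ_mul, List.range_add]
    simp [Nat.add_assoc]

theorem fam2_map {f : Fin m → Lit n → Vx n m} (a : ℕ)
    (h : ∀ c q, pos (f c q) = a + (c.val * (2 * n) + ln q)) :
    (fam2 f).map pos = (List.range (A2 m n)).map fun i => a + i := by
  unfold fam2
  rw [List.map_flatMap, A2, ← flatMap_range_add]
  symm
  refine flatMap_fin m _ _ fun c => ?_
  rw [← lits_ln, List.map_map, List.map_map]
  exact List.map_congr_left fun q _ => by simp [h]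

theorem fam3_map {f : Fin m → Fin m → Lit n → Vx n m} (a : ℕ)
    (h : ∀ c c' q, pos (f c c' q) =
      a + (c.val * (m * (2 * n)) + (c'.val * (2 * n) + ln q))) :
    (fam3 f).map pos = (List.range (A3 m n)).map fun i => a + i := by
  unfold fam3
  rw [List.map_flatMap, A3, ← flatMap_range_add]
  symm
  refine flatMap_fin m _ _ fun c => ?_
  rw [List.map_flatMap]
  have e1 : ((List.range (m * (2 * n))).map fun i => a + (c.val * (m * (2 * n)) + i)) =
      (List.range (m * (2 * n))).map fun i => (a + c.val * (m * (2 * n))) + i :=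
    List.map_congr_left fun i _ => by ring
  rw [e1, ← flatMap_range_add]
  refine flatMap_fin m _ _ fun c' => ?_
  rw [← lits_ln, List.map_map, List.map_map]
  exact List.map_congr_left fun q _ => by
    simp only [comp_apply, h]
    ring

theorem range_app (a b : ℕ) : List.range a ++ (List.range b).map (fun i => a + i) =
    List.range (a + b) := List.range_add.symm

theorem lvs_map : (lvs n m).map pos = List.range (tot m n) := by
  have e0 : (fam3 (.wa : Fin m → Fin m → Lit n → Vx n m)).map pos = List.range (A3 m n) := by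
    rw [fam3_map 0 (fun c c' q => by simp [pos, base])]
    simp
  unfold lvs
  simp only [List.map_append, List.map_cons]
  rw [e0, fam3_map (base m n .wb) (fun c c' q => rfl), fam3_map (base m n .t) (fun c c' q => rfl),
    fam3_map (base m n .mm) (fun c c' q => rfl), fam2_map (base m n .s) (fun c q => rfl),
    fam2_map (base m n .r) (fun c q => rfl), fam2_map (base m n .ua) (fun c q => rfl),
    fam2_map (base m n .ub) (fun c q => rfl)]
  simp only [base, tot, List.range_add, List.append_assoc, List.range_one, List.map_cons,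
    List.map_nil, List.cons_append, List.nil_append, pos]

theorem length_lvs : (lvs n m).length = tot m n := by
  have := congrArg List.length (lvs_map (n := n) (m := m))
  simpa using this

theorem idx_of_map {α : Type} [DecidableEq α] {l : List α} {f : α → ℕ} {N : ℕ}
    (h : l.map f = List.range N) {a : α} (ha : a ∈ l) : l.idxOf a = f a := by
  have hlt : l.idxOf a < l.length := List.idxOf_lt_length_iff.2 ha
  have h1 : (l.map f)[l.idxOf a]? = some (f a) := by
    rw [List.getElem?_map, List.getElem?_eq_getElem hlt, List.getElem_idxOf hlt]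
    rfl
  rw [h, List.getElem?_eq_some_iff] at h1
  obtain ⟨h2, h3⟩ := h1
  simpa using h3

theorem mem_lvs (v : Vx n m) : v ∈ lvs n m := by
  have hl : ∀ q : Lit n, q ∈ lits n := by
    rintro ⟨k, b⟩
    unfold lits
    rw [List.mem_flatMap]
    exact ⟨k, List.mem_finRange _, by cases b <;> simp⟩
  unfold lvs fam2 fam3
  cases v <;> simp [hl]

theorem idxOf_lvs (v : Vx n m) : (lvs n m).idxOf v = pos v := idx_of_map lvs_map (mem_lvs v)

theorem idxOf_vl (v : Vx n m) :
    (HV.P :: HV.Q :: (lvs n m).map HV.x).idxOf (.x v) = 2 + pos v := by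
  have h : HV.Q ≠ HV.x v := by simp
  have h' : HV.P ≠ HV.x v := by simp
  rw [List.idxOf_cons_ne _ h', List.idxOf_cons_ne _ h, ← idxOf_lvs]
  have h3 : ∀ l : List (Vx n m), (l.map HV.x).idxOf (HV.x v) = l.idxOf v := by
    intro l
    induction l with
    | nil => rfl
    | cons a l ih =>
      rw [List.map_cons]
      by_cases hav : a = v
      · subst hav
        rw [List.idxOf_cons_self, List.idxOf_cons_self]
      · rw [List.idxOf_cons_ne _ (by simpa using hav), List.idxOf_cons_ne _ hav, ih]
  rw [h3]
  omega

/-! ### Reversed lists -/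

theorem reverse_flatMap_pos {α β : Type} {l : List α} {f : α → ℕ} {N : ℕ}
    (h : l.map f = List.range N) (g : ℕ → List β) :
    l.reverse.flatMap (fun w => g (f w)) = l.flatMap fun w => g (N - 1 - f w) := by
  have e1 : l.reverse.flatMap (fun w => g (f w)) = (l.map f).reverse.flatMap g := by
    rw [← List.map_reverse, List.flatMap_map]
  have e2 : (l.flatMap fun w => g (N - 1 - f w)) =
      (l.map f).flatMap fun i => g (N - 1 - i) := by
    rw [List.flatMap_map]
  rw [e1, e2, h]
  have e3 : (List.range N).reverse = (List.range N).map fun i => N - 1 - i := by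
    apply List.ext_getElem
    · simp
    · intro i h1 h2
      simp
  rw [e3, List.flatMap_map]

theorem others_eq (c : Fin m) : ((others c).map fun c' => c'.val) =
    (List.range m).filter fun i => decide (i ≠ c.val) := by
  unfold others
  have h1 : List.range m = (List.finRange m).map (fun k => k.val) := by
    apply List.ext_getElem <;> simp
  rw [h1, List.filter_map]
  congr 1
  refine List.filter_congr fun i _ => ?_
  simp [Fin.ext_iff]

theorem others_desc {c : Fin m} (g : ℕ → List Bool) :
    ((others c).reverse.flatMap fun c' => g c'.val) = desc m c.val g := by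
  have e1 : ((others c).reverse.flatMap fun c' => g c'.val) =
      ((List.range m).filter fun i => decide (i ≠ c.val)).reverse.flatMap g := by
    rw [← others_eq, ← List.map_reverse, List.flatMap_map]
  have e2 : desc m c.val g =
      (((List.range m).filter fun y => decide (c.val < y)).map (fun y => m + c.val - y) ++
        ((List.range m).filter fun y => decide (y < c.val)).map (fun y => c.val - 1 - y)).flatMap
          g := by
    rw [List.flatMap_append, List.flatMap_map, List.flatMap_map, desc]
    congr 1
    · generalize List.range m = l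
      induction l with
      | nil => rfl
      | cons a l ih =>
        rw [List.flatMap_cons, ih, List.filter_cons]
        by_cases h : c.val < a <;> simp [h]
    · generalize List.range m = l
      induction l with
      | nil => rfl
      | cons a l ih =>
        rw [List.flatMap_cons, ih, List.filter_cons]
        by_cases h : a < c.val <;> simp [h]
  rw [e1, e2]
  congr 1
  have hc := c.isLt
  refine List.Perm.eq_of_pairwise (le := fun a b => b < a) (fun a b _ _ h1 h2 => by omega)
    ?_ ?_ ?_
  · rw [List.pairwise_reverse]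
    exact (List.pairwise_lt_range).filter _
  · rw [List.pairwise_append]
    refine ⟨?_, ?_, ?_⟩
    · rw [List.pairwise_map]
      refine ((List.pairwise_lt_range (n := m)).filter _).imp_of_mem ?_
      intro a b ha hb hab
      have h1 := List.mem_range.1 (List.mem_filter.1 ha).1
      have h2 := List.mem_range.1 (List.mem_filter.1 hb).1
      omega
    · rw [List.pairwise_map]
      refine ((List.pairwise_lt_range (n := m)).filter _).imp_of_mem ?_
      intro a b ha hb hab
      have h1 := of_decide_eq_true (List.mem_filter.1 ha).2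
      have h2 := of_decide_eq_true (List.mem_filter.1 hb).2
      omega
    · intro a ha b hb
      obtain ⟨a', ha', rfl⟩ := List.mem_map.1 ha
      obtain ⟨b', hb', rfl⟩ := List.mem_map.1 hb
      have h1 := List.mem_range.1 (List.mem_filter.1 ha').1
      have h2 := of_decide_eq_true (List.mem_filter.1 hb').2
      omega
  · have key : ∀ l l' : List ℕ, l.Nodup → l'.Nodup → (∀ a, a ∈ l ↔ a ∈ l') → l.Perm l' :=
      fun l l' h1 h2 h3 => (List.perm_ext_iff_of_nodup h1 h2).2 h3
    refine key _ _ ?_ ?_ fun a => ?_
    · rw [List.nodup_reverse]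
      exact List.nodup_range.filter _
    · rw [List.nodup_append]
      refine ⟨?_, ?_, ?_⟩
      · refine (List.nodup_range.filter _).map_on ?_
        intro a ha b hb hab
        have h1 := List.mem_range.1 (List.mem_filter.1 ha).1
        have h2 := List.mem_range.1 (List.mem_filter.1 hb).1
        omega
      · refine (List.nodup_range.filter _).map_on ?_
        intro a ha b hb hab
        have h1 := of_decide_eq_true (List.mem_filter.1 ha).2
        have h2 := of_decide_eq_true (List.mem_filter.1 hb).2
        omega
      · intro a ha b hb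
        obtain ⟨a', ha', rfl⟩ := List.mem_map.1 ha
        obtain ⟨b', hb', rfl⟩ := List.mem_map.1 hb
        have h1 := List.mem_range.1 (List.mem_filter.1 ha').1
        have h2 := of_decide_eq_true (List.mem_filter.1 hb').2
        omega
    · simp only [List.mem_reverse, List.mem_filter, List.mem_range, decide_eq_true_eq,
        List.mem_append, List.mem_map]
      constructor
      · rintro ⟨h1, h2⟩
        rcases Nat.lt_or_gt_of_ne h2 with h3 | h3
        · exact Or.inr ⟨c.val - 1 - a, ⟨by omega, by omega⟩, by omega⟩
        · exact Or.inl ⟨m + c.val - a, ⟨by omega, by omega⟩, by omega⟩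
      · rintro (⟨y, ⟨h1, h2⟩, h3⟩ | ⟨y, ⟨h1, h2⟩, h3⟩) <;> omega

/-! ### The word -/

theorem f3_eq {f : Fin m → Fin m → Lit n → Vx n m} {H : Vx n m → List Bool}
    {g : ℕ → ℕ → ℕ → Bool → List Bool}
    (h : ∀ c c' k b, H (f c c' (k, b)) = g c.val c'.val k.val b) :
    (fam3 f).flatMap H = f3 m n g := by
  unfold fam3 f3
  rw [List.flatMap_assoc]
  refine (flatMap_fin m _ _ fun c => ?_).symm
  rw [List.flatMap_assoc]
  refine flatMap_fin m _ _ fun c' => ?_
  rw [List.flatMap_map, lits, List.flatMap_assoc]
  refine flatMap_fin n _ _ fun k => ?_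
  simp [h]

theorem f2_eq {f : Fin m → Lit n → Vx n m} {H : Vx n m → List Bool}
    {g : ℕ → ℕ → Bool → List Bool}
    (h : ∀ c k b, H (f c (k, b)) = g c.val k.val b) :
    (fam2 f).flatMap H = f2 m n g := by
  unfold fam2 f2
  rw [List.flatMap_assoc]
  refine (flatMap_fin m _ _ fun c => ?_).symm
  rw [List.flatMap_map, lits, List.flatMap_assoc]
  refine flatMap_fin n _ _ fun k => ?_
  simp [h]

theorem lvs_flatMap {H : Vx n m → List Bool} {G : VK → ℕ → ℕ → ℕ → Bool → List Bool}
    (h3 : ∀ κ, κ = .wa ∨ κ = .wb ∨ κ = .t ∨ κ = .mm → ∀ (c c' : Fin m) (k : Fin n) (b : Bool),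
      H (vx c c' k b κ) = G κ c.val c'.val k.val b)
    (h2 : ∀ κ, κ = .s ∨ κ = .r ∨ κ = .ua ∨ κ = .ub → ∀ (c : Fin m) (k : Fin n) (b : Bool),
      H (vx c c k b κ) = G κ c.val 0 k.val b)
    (h1 : H .z1 = G .z1 0 0 0 false) (h1' : H .z2 = G .z2 0 0 0 false) :
    (lvs n m).flatMap H = en m n G := by
  unfold lvs en
  simp only [List.flatMap_append, List.flatMap_cons]
  rw [f3_eq (g := G .wa) fun c c' k b => h3 .wa (by simp) c c' k b,
    f3_eq (g := G .wb) fun c c' k b => h3 .wb (by simp) c c' k b,
    f3_eq (g := G .t) fun c c' k b => h3 .t (by simp) c c' k b,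
    f3_eq (g := G .mm) fun c c' k b => h3 .mm (by simp) c c' k b,
    f2_eq (g := fun c k b => G .s c 0 k b) fun c k b => h2 .s (by simp) c k b,
    f2_eq (g := fun c k b => G .r c 0 k b) fun c k b => h2 .r (by simp) c k b,
    f2_eq (g := fun c k b => G .ua c 0 k b) fun c k b => h2 .ua (by simp) c k b,
    f2_eq (g := fun c k b => G .ub c 0 k b) fun c k b => h2 .ub (by simp) c k b,
    h1, h1']

theorem pos_vx (c c' : Fin m) (k : Fin n) (b : Bool) (κ : VK) :
    pos (vx c c' k b κ) = base m n κ + off m n κ c.val c'.val k.val b := by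
  cases κ <;> rfl

/-- The entry of a vertex. -/
def en1 (w : HV (Vx n m)) : List Bool :=
  ent ((HV.P :: HV.Q :: (lvs n m).map HV.x).idxOf w)

theorem en1_P : en1 (.P : HV (Vx n m)) = ent 0 := by simp [en1]
theorem en1_Q : en1 (.Q : HV (Vx n m)) = ent 1 := by
  simp [en1]
theorem en1_x (v : Vx n m) : en1 (.x v) = ent (2 + pos v) := by
  unfold en1
  rw [idxOf_vl]

theorem en1_vx (c c' : Fin m) (k : Fin n) (b : Bool) (κ : VK) :
    en1 (.x (vx c c' k b κ)) = E m n κ c.val c'.val k.val b := by
  rw [en1_x, pos_vx]
  rfl

theorem off2_irrel (c' c'' : ℕ) {c k : ℕ} {b : Bool} {κ : VK}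
    (hκ : κ = .s ∨ κ = .r ∨ κ = .ua ∨ κ = .ub) :
    E m n κ c c' k b = E m n κ c c'' k b := by
  rcases hκ with rfl | rfl | rfl | rfl <;> rfl

theorem en1_s (c : Fin m) (k : Fin n) (b : Bool) :
    en1 (.x (.s c (k, b))) = E m n .s c.val 0 k.val b := by
  rw [show (.s c (k, b) : Vx n m) = vx c c k b .s from rfl, en1_vx]; rfl
theorem en1_r (c : Fin m) (k : Fin n) (b : Bool) :
    en1 (.x (.r c (k, b))) = E m n .r c.val 0 k.val b := by
  rw [show (.r c (k, b) : Vx n m) = vx c c k b .r from rfl, en1_vx]; rfl
theorem en1_ua (c : Fin m) (k : Fin n) (b : Bool) :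
    en1 (.x (.ua c (k, b))) = E m n .ua c.val 0 k.val b := by
  rw [show (.ua c (k, b) : Vx n m) = vx c c k b .ua from rfl, en1_vx]; rfl
theorem en1_ub (c : Fin m) (k : Fin n) (b : Bool) :
    en1 (.x (.ub c (k, b))) = E m n .ub c.val 0 k.val b := by
  rw [show (.ub c (k, b) : Vx n m) = vx c c k b .ub from rfl, en1_vx]; rfl
theorem en1_wa (c c' : Fin m) (k : Fin n) (b : Bool) :
    en1 (.x (.wa c c' (k, b))) = E m n .wa c.val c'.val k.val b := en1_vx c c' k b .wa
theorem en1_wb (c c' : Fin m) (k : Fin n) (b : Bool) :
    en1 (.x (.wb c c' (k, b))) = E m n .wb c.val c'.val k.val b := en1_vx c c' k b .wb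
theorem en1_t (c c' : Fin m) (k : Fin n) (b : Bool) :
    en1 (.x (.t c c' (k, b))) = E m n .t c.val c'.val k.val b := en1_vx c c' k b .t
theorem en1_mm (c c' : Fin m) (k : Fin n) (b : Bool) :
    en1 (.x (.mm c c' (k, b))) = E m n .mm c.val c'.val k.val b := en1_vx c c' k b .mm

theorem nxt_eq (k : Fin n) (b : Bool) :
    ∃ k' : Fin n, nxt (k, b) = (k', !b) ∧ k'.val = nxN n k.val b := by
  cases b
  · exact ⟨k, rfl, rfl⟩
  · exact ⟨_, rfl, rfl⟩

theorem prv_eq (k : Fin n) (b : Bool) :
    ∃ k' : Fin n, prv (k, b) = (k', !b) ∧ k'.val = pvN n k.val b := by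
  cases b
  · exact ⟨_, rfl, rfl⟩
  · exact ⟨k, rfl, rfl⟩

theorem others_flatMap_reverse {c : Fin m} (f : Fin m → List (Vx n m)) :
    ((others c).flatMap f).reverse = (others c).reverse.flatMap fun c' => (f c').reverse := by
  generalize others c = l
  induction l with
  | nil => rfl
  | cons a l ih => simp [ih, List.flatMap_append]

variable {cl : Fin m → Finset (Lit n)} {lst : ℕ → ℕ → Bool → Prop}

theorem word_x (v : Vx n m) :
    (satRot cl (.x v)).flatMap en1 ++ [false] =
      (up cl v).flatMap (fun w => en1 (.x w)) ++ (ent 1 ++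
        ((dn cl v).reverse.flatMap (fun w => en1 (.x w)) ++ (ent 0 ++ [false]))) := by
  unfold satRot hubRot
  simp only [List.flatMap_append, List.flatMap_cons, List.flatMap_nil, List.append_nil, en1_Q,
    en1_P, List.append_assoc, List.flatMap_map]

theorem word_vx (hl : ∀ c k b, (k, b) ∈ cl c ↔ lst c.val k.val b) (c c' : Fin m) (k : Fin n)
    (b : Bool) (κ : VK) :
    (satRot cl (.x (vx c c' k b κ))).flatMap en1 ++ [false] =
      wd m n lst κ c.val c'.val k.val b := by
  rw [word_x]
  cases κ
  · -- wa
    simp only [vx, up, dn, wd, neg, List.reverse_nil, List.flatMap_nil, List.nil_append]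
    congr 1
    by_cases h : c = c'
    · simp [h]
    · rw [if_neg h, if_neg (fun h' => h (Fin.ext h'))]
      simp [en1_t, en1_ua]
  · -- wb
    simp only [vx, up, dn, wd, neg, List.reverse_nil, List.flatMap_nil, List.nil_append]
    congr 1
    by_cases h : c = c'
    · simp [h]
    · rw [if_neg h, if_neg (fun h' => h (Fin.ext h'))]
      simp [en1_t, en1_ub, en1_mm]
  · -- z2
    simp only [vx, up, dn, wd, List.reverse_nil, List.flatMap_nil, List.nil_append]
  · -- t
    simp only [vx, up, dn, wd, neg, List.flatMap_nil, List.nil_append]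
    congr 2
    by_cases h : c = c'
    · simp [h]
    · rw [if_neg h, if_neg (fun h' => h (Fin.ext h'))]
      simp [en1_wa, en1_wb]
  · -- mm
    simp only [vx, up, dn, wd]
    by_cases h : c = c'
    · simp [h]
    · rw [if_neg h, if_neg h, if_neg (fun h' => h (Fin.ext h')),
        if_neg (fun h' => h (Fin.ext h'))]
      simp [en1_ua, en1_wb]
  · -- s
    obtain ⟨k', h1, h2⟩ := nxt_eq k b
    simp only [vx, up, dn, wd, h1, ← h2]
    simp [en1_ub, en1_ua]
  · -- r
    simp only [vx, up, dn, wd, List.reverse_nil, List.flatMap_nil, List.nil_append]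
    congr 1
    by_cases h : (k, b) ∈ cl c
    · rw [if_pos h, if_pos ((hl c k b).1 h)]
      rfl
    · rw [if_neg h, if_neg (fun h' => h ((hl c k b).2 h'))]
      simp [en1_ub, en1_ua]
  · -- z1
    simp only [vx, up, dn, wd, List.reverse_nil, List.flatMap_nil, List.nil_append]
  · -- ua
    obtain ⟨k', h1, h2⟩ := prv_eq k b
    simp only [vx, up, dn, wd, h1, ← h2, List.flatMap_nil, List.nil_append]
    rw [← others_desc]
    congr 1
    simp only [List.reverse_cons, List.reverse_append, others_flatMap_reverse,
      List.flatMap_append, List.append_assoc, List.flatMap_assoc, List.flatMap_cons,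
      List.flatMap_nil, List.append_nil, List.reverse_nil, List.nil_append, en1_s, en1_mm, en1_wa]
    congr 1
    by_cases h : (k, b) ∈ cl c
    · rw [if_pos h, if_pos ((hl c k b).1 h)]
      rfl
    · rw [if_neg h, if_neg (fun h' => h ((hl c k b).2 h'))]
      simp [en1_r]
  · -- ub
    simp only [vx, up, dn, wd, List.flatMap_nil, List.nil_append]
    rw [← others_desc]
    congr 1
    simp only [List.reverse_cons, List.reverse_append, List.flatMap_append, List.append_assoc,
      List.flatMap_cons, List.flatMap_nil, List.append_nil, List.reverse_nil, List.nil_append,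
      en1_s, ← List.map_reverse, List.flatMap_map, en1_wb]
    congr 2
    by_cases h : (k, b) ∈ cl c
    · rw [if_pos h, if_pos ((hl c k b).1 h)]
      rfl
    · rw [if_neg h, if_neg (fun h' => h ((hl c k b).2 h'))]
      simp [en1_r]

theorem ffo_eq (c c' : Fin m) (k : Fin n) (b : Bool) (κ : VK) :
    2 + (tot m n - 1 - pos (vx c c' k b κ)) =
      1 + (rest m n κ + ffo m n κ c.val c'.val k.val b) := by
  rw [pos_vx]
  have h1 := base_size_rest m n κ
  have h2 := off_add_ffo c.isLt c'.isLt k.isLt κ b
  have h3 : 0 < ffo m n κ c.val c'.val k.val b := by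
    cases κ <;> simp only [ffo] <;> cases b <;> simp
  omega

theorem codeL_word (hm : 0 < m) (hn : 0 < n)
    (hl : ∀ c k b, (k, b) ∈ cl c ↔ lst c.val k.val b) :
    codeL (.P :: .Q :: (lvs n m).map .x) (satRot cl) = WN m n lst := by
  have e0 : codeL (.P :: .Q :: (lvs n m).map .x) (satRot cl) =
      List.replicate (2 + tot m n) true ++ (false ::
        (((satRot cl .P).flatMap en1 ++ [false]) ++ (((satRot cl .Q).flatMap en1 ++ [false]) ++
          (lvs n m).flatMap fun v => (satRot cl (.x v)).flatMap en1 ++ [false]))) := by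
    unfold codeL
    rw [List.length_cons, List.length_cons, List.length_map, length_lvs, Nat.add_comm 2]
    simp only [List.flatMap_cons, List.flatMap_map]
    rfl
  rw [e0, WN]
  have c0 : Fin m := ⟨0, hm⟩
  have k0 : Fin n := ⟨0, hn⟩
  have hP : (satRot cl .P).flatMap en1 ++ [false] =
      en m n (fun κ c c' k b => ent (1 + (rest m n κ + ffo m n κ c c' k b))) ++
        (ent 1 ++ [false]) := by
    have : (satRot cl .P).flatMap en1 = (lvs n m).reverse.flatMap (fun w => ent (2 + pos w)) ++
        ent 1 := by
      unfold satRot hubRot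
      simp only [List.flatMap_append, List.flatMap_cons, List.flatMap_nil, List.append_nil,
        en1_Q, List.flatMap_map, en1_x]
    rw [this, List.append_assoc, reverse_flatMap_pos lvs_map (fun i => ent (2 + i)),
      lvs_flatMap (G := fun κ c c' k b => ent (1 + (rest m n κ + ffo m n κ c c' k b)))]
    · intro κ hκ c c' k b
      simp only [ffo_eq]
    · intro κ hκ c k b
      simp only [ffo_eq]
      rcases hκ with rfl | rfl | rfl | rfl <;> rfl
    · have := ffo_eq c0 c0 k0 false .z1
      simp only [vx] at this
      simp only [this]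
      rfl
    · have := ffo_eq c0 c0 k0 false .z2
      simp only [vx] at this
      simp only [this]
      rfl
  have hQ : (satRot cl .Q).flatMap en1 ++ [false] =
      en m n (fun κ c c' k b => E m n κ c c' k b) ++ (ent 0 ++ [false]) := by
    have : (satRot cl .Q).flatMap en1 = (lvs n m).flatMap (fun w => en1 (.x w)) ++ ent 0 := by
      unfold satRot hubRot
      simp only [List.flatMap_append, List.flatMap_cons, List.flatMap_nil, List.append_nil,
        en1_P, List.flatMap_map]
    rw [this, List.append_assoc, lvs_flatMap (G := fun κ c c' k b => E m n κ c c' k b)]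
    · intro κ hκ c c' k b
      exact en1_vx c c' k b κ
    · intro κ hκ c k b
      rw [en1_vx]
      exact off2_irrel _ _ hκ
    · exact en1_vx c0 c0 k0 false .z1
    · exact en1_vx c0 c0 k0 false .z2
  rw [hP, hQ, lvs_flatMap (G := wd m n lst)]
  · intro κ hκ c c' k b
    exact word_vx hl c c' k b κ
  · intro κ hκ c k b
    rw [word_vx hl]
    rcases hκ with rfl | rfl | rfl | rfl <;> rfl
  · have := word_vx hl c0 c0 k0 false .z1
    simp only [vx] at this
    rw [this]
    rfl
  · have := word_vx hl c0 c0 k0 false .z2
    simp only [vx] at this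
    rw [this]
    rfl

end Pool.Agent.Lib.MP_b347ba_lc_h74
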