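import Pool.Agent.Lib.MP_b347ba_lc_h74.Pg

/-!
# Numbers in unary
-/

namespace Pool.Agent.Lib.MP_b347ba_lc_h74

set_option linter.unusedSectionVars false
set_option linter.unusedSimpArgs false

open Pool.Agent.Lib.PolyTM Pool.Agent.Lib.PolyTM.Tab Function
open Pool.Agent.Lib.MP_a950c6_lc

variable {P : Pr} {r U : ℕ} {bj bk : Fam → Bool} {φ : List Bool → Vl → Prop}
  {g h : List Bool → Vl → ℕ}

variable (P r U) in
/-- The number `g` is written in unary. -/
def Nu (bj bk : Fam → Bool) (g : List Bool → Vl → ℕ) : Prop :=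
  Pg P r U bj bk fun x v => List.replicate (g x v) true

theorem Nu.congr (h1 : Nu P r U bj bk g) (hq : ∀ x v, Bd P r U x v → g x v = h x v) :
    Nu P r U bj bk h :=
  Pg.congr h1 fun x v hb => by rw [hq x v hb]

theorem Nu.add (h1 : Nu P r U bj bk g) (h2 : Nu P r U bj bk h) :
    Nu P r U bj bk fun x v => g x v + h x v :=
  (h1.seq h2).congr fun x v _ => by rw [List.replicate_add]

theorem Nu.const (c : ℕ) : Nu P r U bj bk fun _ _ => c := by
  induction c with
  | zero => exact Pg.skip
  | succ c ih =>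
    exact (ih.seq (Pg.bit true)).congr fun x v _ => (List.replicate_succ' (n := c)).symm

open Classical in
theorem Nu.ite (hp : Dp P r U bj bk φ) (h1 : Nu P r U bj bk g) (h2 : Nu P r U bj bk h) :
    Nu P r U bj bk fun x v => if φ x v then g x v else h x v :=
  (Pg.ite hp h1 h2).congr fun x v _ => by
    by_cases h : φ x v
    · simp [h]
    · simp [h]

theorem flatMap_replicate (m : ℕ) (g : ℕ → ℕ) :
    ((List.range m).flatMap fun t => List.replicate (g t) true) =
      List.replicate (∑ t ∈ Finset.range m, g t) true := by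
  induction m with
  | zero => simp
  | succ m ih =>
    rw [List.range_succ, List.flatMap_append, ih, Finset.sum_range_succ, List.replicate_add]
    simp

theorem Nu.sumJ (f : Fam) (hf : bj f = false) (h1 : Nu P r U (update bj f true) bk g) :
    Nu P r U bj bk fun x v => ∑ t ∈ Finset.range (mX P r x), g x (v.sJ f t) :=
  (Pg.loopJ f hf h1).congr fun _ _ _ => flatMap_replicate _ _

theorem Nu.sumK (f : Fam) (hf : bk f = false) (h1 : Nu P r U bj (update bk f true) g) :
    Nu P r U bj bk fun x v => ∑ t ∈ Finset.range (mX P U x), g x (v.sK f t) :=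
  (Pg.loopK f hf h1).congr fun _ _ _ => flatMap_replicate _ _

open Classical in
theorem Nu.mulJ (f : Fam) (hf : bj f = false) (hφ : Dp P r U (update bj f true) bk φ)
    (h1 : Nu P r U (update bj f true) bk g) (hg : ∀ x v t, g x (v.sJ f t) = g x v) :
    Nu P r U bj bk fun x v =>
      ((Finset.range (mX P r x)).filter fun t => φ x (v.sJ f t)).card * g x v :=
  (Nu.sumJ f hf (Nu.ite hφ h1 (Nu.const 0))).congr fun x v _ => by
    rw [← Finset.sum_filter, Finset.sum_congr rfl fun t _ => hg x v t, Finset.sum_const,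
      smul_eq_mul]

open Classical in
theorem Nu.mulK (f : Fam) (hf : bk f = false) (hφ : Dp P r U bj (update bk f true) φ)
    (h1 : Nu P r U bj (update bk f true) g) (hg : ∀ x v t, g x (v.sK f t) = g x v) :
    Nu P r U bj bk fun x v =>
      ((Finset.range (mX P U x)).filter fun t => φ x (v.sK f t)).card * g x v :=
  (Nu.sumK f hf (Nu.ite hφ h1 (Nu.const 0))).congr fun x v _ => by
    rw [← Finset.sum_filter, Finset.sum_congr rfl fun t _ => hg x v t, Finset.sum_const,
      smul_eq_mul]

/-! ### Families -/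

abbrev a0 : Fam := (false, false)
abbrev a1 : Fam := (false, true)
abbrev a2 : Fam := (true, false)
abbrev a3 : Fam := (true, true)

/-- The auxiliary families are not in scope. -/
structure Aux (bj bk : Fam → Bool) : Prop where
  j2 : bj a2 = false
  j3 : bj a3 = false
  k2 : bk a2 = false

theorem Nu.twoN (hk : bk a2 = false) : Nu P r U bj bk fun x _ => 2 * mX P U x :=
  (Nu.mulK a2 hk Dp.tru (Nu.const 2) fun _ _ _ => rfl).congr fun x v _ => by
    simp [Nat.mul_comm]

theorem Nu.mTwoN (hj : bj a3 = false) (hk : bk a2 = false) :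
    Nu P r U bj bk fun x _ => mX P r x * (2 * mX P U x) :=
  (Nu.mulJ a3 hj Dp.tru (Nu.twoN hk) fun _ _ _ => rfl).congr fun x v _ => by simp

theorem upd_ne {b : Fam → Bool} {f g : Fam} (h : g ≠ f) : update b f true g = b g := by
  rw [update_of_ne h]

theorem Nu.mmTwoN (ha : Aux bj bk) :
    Nu P r U bj bk fun x _ => mX P r x * (mX P r x * (2 * mX P U x)) :=
  (Nu.mulJ a2 ha.j2 Dp.tru (Nu.mTwoN (by rw [upd_ne (by decide)]; exact ha.j3) ha.k2)
    fun _ _ _ => rfl).congr fun x v _ => by simp

variable (P r U) in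
/-- A number below the number of clauses that can be multiplied. -/
structure JT (bj bk : Fam → Bool) (T : List Bool → Vl → ℕ) : Prop where
  big : Nu P r U bj bk fun x v => T x v * (mX P r x * (2 * mX P U x))
  small : Nu P r U bj bk fun x v => T x v * (2 * mX P U x)

open Classical in
theorem JT.count (ha : Aux bj bk) (hφ : Dp P r U (update bj a2 true) bk φ)
    {T : List Bool → Vl → ℕ} (hT : ∀ x v, Bd P r U x v →
      ∃ s : Finset ℕ, (∀ t, t ∈ s ↔ t < mX P r x ∧ φ x (v.sJ a2 t)) ∧ s.card = T x v) :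
    JT P r U bj bk T := by
  replace hT : ∀ x v, Bd P r U x v →
      ((Finset.range (mX P r x)).filter fun t => φ x (v.sJ a2 t)).card = T x v := by
    intro x v hb
    obtain ⟨s, h1, h2⟩ := hT x v hb
    rw [← h2]
    congr 1
    ext t
    rw [Finset.mem_filter, Finset.mem_range, h1]
  have h3 : update bj a2 true a3 = false := by rw [upd_ne (by decide)]; exact ha.j3
  refine ⟨(Nu.mulJ a2 ha.j2 hφ (Nu.mTwoN h3 ha.k2) fun _ _ _ => rfl).congr fun x v hb => ?_,
    (Nu.mulJ a2 ha.j2 hφ (Nu.twoN ha.k2) fun _ _ _ => rfl).congr fun x v hb => ?_⟩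
  · rw [hT x v hb]
  · rw [hT x v hb]

theorem JT.add {T T' : List Bool → Vl → ℕ} (h : JT P r U bj bk T) (h' : JT P r U bj bk T') :
    JT P r U bj bk fun x v => T x v + T' x v :=
  ⟨(h.big.add h'.big).congr fun x v _ => by ring, (h.small.add h'.small).congr
    fun x v _ => by ring⟩

theorem JT.congr {T T' : List Bool → Vl → ℕ} (h : JT P r U bj bk T)
    (hq : ∀ x v, Bd P r U x v → T x v = T' x v) : JT P r U bj bk T' :=
  ⟨h.big.congr fun x v hb => by rw [hq x v hb], h.small.congr fun x v hb => by rw [hq x v hb]⟩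

theorem JT.zero : JT P r U bj bk fun _ _ => 0 :=
  ⟨(Nu.const 0).congr fun _ _ _ => by simp, (Nu.const 0).congr fun _ _ _ => by simp⟩

/-- The index of a family. -/
theorem JT.var (ha : Aux bj bk) {f : Fam} (hf : bj f = true) :
    JT P r U bj bk fun _ v => v.j f := by
  have hne : f ≠ a2 := by rintro rfl; simp [ha.j2] at hf
  refine JT.count ha (Dp.ltJ (f := a2) (g := f) hne.symm (by simp)
    (by rw [upd_ne hne]; exact hf)) fun x v hb => ?_
  have h1 := hb.1 f
  refine ⟨Finset.range (v.j f), fun t => ?_, Finset.card_range _⟩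
  simp only [Vl.sJ_j, if_pos, if_neg hne, Finset.mem_range]
  omega

/-- The number of larger indices. -/
theorem JT.above (ha : Aux bj bk) {f : Fam} (hf : bj f = true) :
    JT P r U bj bk fun x v => mX P r x - 1 - v.j f := by
  have hne : f ≠ a2 := by rintro rfl; simp [ha.j2] at hf
  refine JT.count ha (Dp.ltJ (f := f) (g := a2) hne (by rw [upd_ne hne]; exact hf)
    (by simp)) fun x v hb => ?_
  have h1 := hb.1 f
  refine ⟨Finset.Ico (v.j f + 1) (mX P r x), fun t => ?_, by rw [Nat.card_Ico]; omega⟩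
  simp only [Vl.sJ_j, if_pos, if_neg hne, Finset.mem_Ico]
  omega

/-- The index `m + c - y`. -/
theorem JT.refl1 (ha : Aux bj bk) {f g : Fam} (hf : bj f = true) (hg : bj g = true) :
    JT P r U bj bk fun x v => mX P r x + v.j f - v.j g := by
  refine (((JT.above ha hg).add ((JT.var ha hf))).add (T' := fun _ _ => 1) ?_).congr
    fun x v hb => ?_
  · exact ⟨(Nu.mTwoN ha.j3 ha.k2).congr fun x v _ => by ring, (Nu.twoN ha.k2).congr
      fun x v _ => by ring⟩
  · have h1 := hb.1 g
    generalize mX P r x = m at *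
    omega

/-- The index `c - 1 - y`. -/
theorem JT.refl2 (ha : Aux bj bk) {f g : Fam} (hf : bj f = true) (hg : bj g = true) :
    JT P r U bj bk fun _ v => v.j f - 1 - v.j g := by
  have hne : f ≠ a2 := by rintro rfl; simp [ha.j2] at hf
  have hne' : g ≠ a2 := by rintro rfl; simp [ha.j2] at hg
  refine JT.count ha ((Dp.ltJ (f := g) (g := a2) hne' (by rw [upd_ne hne']; exact hg)
    (by simp)).and (Dp.ltJ (f := a2) (g := f) hne.symm (by simp)
      (by rw [upd_ne hne]; exact hf))) fun x v hb => ?_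
  have h1 := hb.1 f
  refine ⟨Finset.Ico (v.j g + 1) (v.j f), fun t => ?_, by rw [Nat.card_Ico]; omega⟩
  simp only [Vl.sJ_j, if_pos, if_neg hne, if_neg hne', Finset.mem_Ico]
  omega

variable (P r U) in
/-- A number below the number of variables. -/
def KT (bj bk : Fam → Bool) (S : List Bool → Vl → ℕ) : Prop :=
  Nu P r U bj bk fun x v => 2 * S x v

open Classical in
theorem KT.count (ha : Aux bj bk) (hφ : Dp P r U bj (update bk a2 true) φ)
    {S : List Bool → Vl → ℕ} (hS : ∀ x v, Bd P r U x v →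
      ∃ s : Finset ℕ, (∀ t, t ∈ s ↔ t < mX P U x ∧ φ x (v.sK a2 t)) ∧ s.card = S x v) :
    KT P r U bj bk S := by
  replace hS : ∀ x v, Bd P r U x v →
      ((Finset.range (mX P U x)).filter fun t => φ x (v.sK a2 t)).card = S x v := by
    intro x v hb
    obtain ⟨s, h1, h2⟩ := hS x v hb
    rw [← h2]
    congr 1
    ext t
    rw [Finset.mem_filter, Finset.mem_range, h1]
  exact (Nu.mulK a2 ha.k2 hφ (Nu.const 2) fun _ _ _ => rfl).congr fun x v hb => by
    rw [hS x v hb, Nat.mul_comm]

theorem KT.congr {S S' : List Bool → Vl → ℕ} (h : KT P r U bj bk S)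
    (hq : ∀ x v, Bd P r U x v → S x v = S' x v) : KT P r U bj bk S' :=
  Nu.congr h fun x v hb => by rw [hq x v hb]

theorem KT.zero : KT P r U bj bk fun _ _ => 0 := Nu.const 0

theorem KT.var (ha : Aux bj bk) {f : Fam} (hf : bk f = true) :
    KT P r U bj bk fun _ v => v.k f := by
  have hne : f ≠ a2 := by rintro rfl; simp [ha.k2] at hf
  refine KT.count ha (Dp.ltK (f := a2) (g := f) hne.symm (by simp)
    (by rw [upd_ne hne]; exact hf)) fun x v hb => ?_
  have h1 := hb.2 f
  refine ⟨Finset.range (v.k f), fun t => ?_, Finset.card_range _⟩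
  simp only [Vl.sK_k, if_pos, if_neg hne, Finset.mem_range]
  omega

theorem KT.above (ha : Aux bj bk) {f : Fam} (hf : bk f = true) :
    KT P r U bj bk fun x v => mX P U x - 1 - v.k f := by
  have hne : f ≠ a2 := by rintro rfl; simp [ha.k2] at hf
  refine KT.count ha (Dp.ltK (f := f) (g := a2) hne (by rw [upd_ne hne]; exact hf)
    (by simp)) fun x v hb => ?_
  have h1 := hb.2 f
  refine ⟨Finset.Ico (v.k f + 1) (mX P U x), fun t => ?_, by rw [Nat.card_Ico]; omega⟩
  simp only [Vl.sK_k, if_pos, if_neg hne, Finset.mem_Ico]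
  omega

/-- The cyclic successor. -/
theorem KT.nxt (ha : Aux bj bk) {f : Fam} (hf : bk f = true) :
    KT P r U bj bk fun x v => (v.k f + 1) % mX P U x := by
  have hne : f ≠ a2 := by rintro rfl; simp [ha.k2] at hf
  refine KT.count ha ((Dp.ltK (f := f) (g := a2) hne (by rw [upd_ne hne]; exact hf)
    (by simp)).not.and (Dp.maxK (f := f) (by rw [upd_ne hne]; exact hf)).not)
    fun x v hb => ?_
  have h1 := hb.2 f
  by_cases hm : v.k f + 1 = mX P U x
  · refine ⟨∅, fun t => ?_, by rw [← hm, Nat.mod_self, Finset.card_empty]⟩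
    simp only [Vl.sK_k, if_pos, if_neg hne, Finset.notMem_empty, false_iff, not_and, not_not]
    exact fun _ _ => hm
  · refine ⟨Finset.range (v.k f + 1), fun t => ?_, by
      rw [Nat.mod_eq_of_lt (by omega), Finset.card_range]⟩
    simp only [Vl.sK_k, if_pos, if_neg hne, Finset.mem_range]
    omega

/-- The cyclic predecessor. -/
theorem KT.prv (ha : Aux bj bk) {f : Fam} (hf : bk f = true) :
    KT P r U bj bk fun x v => (v.k f + (mX P U x - 1)) % mX P U x := by
  have hne : f ≠ a2 := by rintro rfl; simp [ha.k2] at hf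
  refine KT.count ha ((Dp.zeroK (f := a2) (by simp)).not.and
    ((Dp.zeroK (f := f) (by rw [upd_ne hne]; exact hf)).or
    (Dp.ltK (f := a2) (g := f) hne.symm (by simp) (by rw [upd_ne hne]; exact hf))))
    fun x v hb => ?_
  have h1 := hb.2 f
  by_cases hm : v.k f = 0
  · refine ⟨Finset.Ico 1 (mX P U x), fun t => ?_, by
      rw [hm, Nat.zero_add, Nat.mod_eq_of_lt (by omega), Nat.card_Ico]⟩
    simp only [Vl.sK_k, if_pos, if_neg hne, Finset.mem_Ico]
    omega
  · refine ⟨Finset.Ico 1 (v.k f), fun t => ?_, ?_⟩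
    · simp only [Vl.sK_k, if_pos, if_neg hne, Finset.mem_Ico]
      omega
    · have e1 : v.k f + (mX P U x - 1) = (v.k f - 1) + mX P U x := by omega
      rw [e1, Nat.add_mod_right, Nat.mod_eq_of_lt (by omega), Nat.card_Ico]

end Pool.Agent.Lib.MP_b347ba_lc_h74
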