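import Pool.Agent.Lib.MP_a950c6_lc.EmitG

/-!
# Programs as functions of the values of index variables
-/

namespace Pool.Agent.Lib.MP_b347ba_lc_h74

set_option linter.unusedSectionVars false
set_option linter.unusedSimpArgs false

open Pool.Agent.Lib.PolyTM Pool.Agent.Lib.PolyTM.Tab Function
open Pool.Agent.Lib.MP_75fd85_lc (dx nv DV PosV Twin ar1 radP_dx good_dx dvar_dx nv_lt nv_append
  idx idx_lt idx_div idx_mid idx_mod consts spx Sc4 sc4 Mem memF Pn shape_spx consts_dx
  consts_append radS_spx vars_spx eval_ff0 eval_memF inS_dx wf_memF flatMap_fin)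
open Pool.Agent.Lib.MP_a950c6_lc

/-- Values of the indices: clause indices `j` and variable indices `k`. -/
@[ext]
structure Vl where
  j : Fam → ℕ
  k : Fam → ℕ

/-- Change a clause index. -/
def Vl.sJ (v : Vl) (f : Fam) (t : ℕ) : Vl := ⟨update v.j f t, v.k⟩
/-- Change a variable index. -/
def Vl.sK (v : Vl) (f : Fam) (t : ℕ) : Vl := ⟨v.j, update v.k f t⟩

@[simp] theorem Vl.sJ_j (v : Vl) (f g : Fam) (t : ℕ) : (v.sJ f t).j g = if g = f then t else v.j g := by
  simp [Vl.sJ, update_apply]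
@[simp] theorem Vl.sJ_k (v : Vl) (f g : Fam) (t : ℕ) : (v.sJ f t).k g = v.k g := rfl
@[simp] theorem Vl.sK_k (v : Vl) (f g : Fam) (t : ℕ) : (v.sK f t).k g = if g = f then t else v.k g := by
  simp [Vl.sK, update_apply]
@[simp] theorem Vl.sK_j (v : Vl) (f g : Fam) (t : ℕ) : (v.sK f t).j g = v.j g := rfl

variable {P : Pr} {r U : ℕ}

variable (P) in
/-- The variables in scope are those of the given families. -/
def InSc (bj bk : Fam → Bool) (F : List P.V) : Prop :=
  ∀ y, y ∈ F ↔ (∃ f, bj f = true ∧ y ∈ P.vJ f) ∨ ∃ f, bk f = true ∧ y ∈ P.vI f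

theorem InSc.scope {bj bk : Fam → Bool} {F : List P.V} (h : InSc P bj bk F) : Scope F := by
  intro i hi
  rcases (h _).1 hi with ⟨f, -, h'⟩ | ⟨f, -, h'⟩
  · obtain ⟨g, i, h1, -⟩ := P.mem_vJ h'
    simp at h1
  · obtain ⟨g, i, h1, -⟩ := P.mem_vI h'
    simp at h1

theorem InSc.addJ {bj bk : Fam → Bool} {F : List P.V} (h : InSc P bj bk F) (f : Fam) :
    InSc P (update bj f true) bk ((P.vJ f).reverse ++ F) := by
  intro y
  rw [List.mem_append, List.mem_reverse, h y]
  constructor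
  · rintro (h1 | ⟨g, h1, h2⟩ | h1)
    · exact Or.inl ⟨f, by simp, h1⟩
    · refine Or.inl ⟨g, ?_, h2⟩
      by_cases hg : g = f
      · simp [hg]
      · simp [hg, h1]
    · exact Or.inr h1
  · rintro (⟨g, h1, h2⟩ | h1)
    · by_cases hg : g = f
      · subst hg
        exact Or.inl h2
      · rw [update_of_ne hg] at h1
        exact Or.inr (Or.inl ⟨g, h1, h2⟩)
    · exact Or.inr (Or.inr h1)

theorem InSc.addK {bj bk : Fam → Bool} {F : List P.V} (h : InSc P bj bk F) (f : Fam) :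
    InSc P bj (update bk f true) ((P.vI f).reverse ++ F) := by
  intro y
  rw [List.mem_append, List.mem_reverse, h y]
  constructor
  · rintro (h1 | h1 | ⟨g, h1, h2⟩)
    · exact Or.inr ⟨f, by simp, h1⟩
    · exact Or.inl h1
    · refine Or.inr ⟨g, ?_, h2⟩
      by_cases hg : g = f
      · simp [hg]
      · simp [hg, h1]
  · rintro (h1 | ⟨g, h1, h2⟩)
    · exact Or.inr (Or.inl h1)
    · by_cases hg : g = f
      · subst hg
        exact Or.inl h2
      · rw [update_of_ne hg] at h1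
        exact Or.inr (Or.inr ⟨g, h1, h2⟩)

theorem InSc.freshJ {bj bk : Fam → Bool} {F : List P.V} (h : InSc P bj bk F) {f : Fam}
    (hf : bj f = false) : ∀ y ∈ P.vJ f, y ∉ F := by
  intro y hy hyF
  rcases (h y).1 hyF with ⟨g, h1, h2⟩ | ⟨g, h1, h2⟩
  · have : f ≠ g := by rintro rfl; simp [hf] at h1
    exact P.vJ_disj this hy h2
  · exact P.vIJ_disj _ _ h2 hy

theorem InSc.freshK {bj bk : Fam → Bool} {F : List P.V} (h : InSc P bj bk F) {f : Fam}
    (hf : bk f = false) : ∀ y ∈ P.vI f, y ∉ F := by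
  intro y hy hyF
  rcases (h y).1 hyF with ⟨g, h1, h2⟩ | ⟨g, h1, h2⟩
  · exact P.vIJ_disj _ _ hy h2
  · have : f ≠ g := by rintro rfl; simp [hf] at h1
    exact P.vI_disj this hy h2

variable (P r U) in
/-- The environment `e` and the constants `s` represent the values `v`. -/
structure Rl (x : List Bool) (e : P.V → ℕ) (s v : Vl) : Prop where
  lt : ∀ y, e y < x.length + 2
  sj : ∀ f, s.j f < r
  sk : ∀ f, s.k f < U
  j : ∀ f, nJ P r f (s.j f) x e = v.j f
  k : ∀ f, nK P U f (s.k f) x e = v.k f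

theorem Rl.j_lt {x : List Bool} {e : P.V → ℕ} {s v : Vl} (h : Rl P r U x e s v) (f : Fam) :
    v.j f < mX P r x := by
  rw [← h.j f]
  exact nJ_lt (h.sj f) h.lt

theorem Rl.k_lt {x : List Bool} {e : P.V → ℕ} {s v : Vl} (h : Rl P r U x e s v) (f : Fam) :
    v.k f < mX P U x := by
  rw [← h.k f]
  exact nK_lt (h.sk f) h.lt

theorem nJ_congr {f : Fam} {σ : ℕ} {x : List Bool} {e e' : P.V → ℕ}
    (h : ∀ y ∈ P.vJ f, e' y = e y) : nJ P r f σ x e' = nJ P r f σ x e := by
  refine num_congr fun y hy => h y ?_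
  simp only [dJ, List.mem_cons, reduceCtorEq, false_or] at hy
  obtain ⟨z, hz, hzy⟩ := List.mem_map.1 hy
  cases hzy
  exact hz

theorem nK_congr {f : Fam} {u : ℕ} {x : List Bool} {e e' : P.V → ℕ}
    (h : ∀ y ∈ P.vI f, e' y = e y) : nK P U f u x e' = nK P U f u x e := by
  refine num_congr fun y hy => h y ?_
  simp only [dK, List.mem_cons, reduceCtorEq, false_or] at hy
  obtain ⟨z, hz, hzy⟩ := List.mem_map.1 hy
  cases hzy
  exact hz

theorem Rl.stepJ {x : List Bool} {e e' : P.V → ℕ} {s v : Vl} (h : Rl P r U x e s v) (f : Fam)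
    {σ : ℕ} (hσ : σ < r) (he : ∀ y, y ∉ P.vJ f → e' y = e y) (hv : ∀ y, e' y < x.length + 2) :
    Rl P r U x e' (s.sJ f σ) (v.sJ f (nJ P r f σ x e')) := by
  refine ⟨hv, fun g => ?_, fun g => h.sk g, fun g => ?_, fun g => ?_⟩
  · rw [Vl.sJ_j]
    split_ifs
    · exact hσ
    · exact h.sj g
  · rw [Vl.sJ_j, Vl.sJ_j]
    split_ifs with hg
    · rw [hg]
    · rw [← h.j g]
      exact nJ_congr fun y hy => he y fun hy' => P.vJ_disj hg hy hy'
  · rw [Vl.sJ_k, Vl.sJ_k, ← h.k g]
    exact nK_congr fun y hy => he y fun hy' => P.vIJ_disj _ _ hy hy'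

theorem Rl.stepK {x : List Bool} {e e' : P.V → ℕ} {s v : Vl} (h : Rl P r U x e s v) (f : Fam)
    {u : ℕ} (hu : u < U) (he : ∀ y, y ∉ P.vI f → e' y = e y) (hv : ∀ y, e' y < x.length + 2) :
    Rl P r U x e' (s.sK f u) (v.sK f (nK P U f u x e')) := by
  refine ⟨hv, fun g => h.sj g, fun g => ?_, fun g => ?_, fun g => ?_⟩
  · rw [Vl.sK_k]
    split_ifs
    · exact hu
    · exact h.sk g
  · rw [Vl.sK_j, Vl.sK_j, ← h.j g]
    exact nJ_congr fun y hy => he y fun hy' => P.vIJ_disj _ _ hy' hy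
  · rw [Vl.sK_k, Vl.sK_k]
    split_ifs with hg
    · rw [hg]
    · rw [← h.k g]
      exact nK_congr fun y hy => he y fun hy' => P.vI_disj hg hy hy'

variable (P r U) in
/-- The predicate `φ` is expressed by formulas with variables from the given families. -/
def Dp (bj bk : Fam → Bool) (φ : List Bool → Vl → Prop) : Prop :=
  ∃ B : Vl → Fml P.V Unit,
    (∀ s : Vl, (∀ f, s.j f < r) → (∀ f, s.k f < U) → ∀ F, InSc P bj bk F →
      (B s).wf ar1 F = true) ∧
    ∀ x a e s v, GoodArr x a → Rl P r U x e s v →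
      ((B s).eval (x.length + 2) a e = true ↔ φ x v)

variable (P r U) in
/-- The word `G` is written by programs with variables from the given families in scope. -/
def Pg (bj bk : Fam → Bool) (G : List Bool → Vl → List Bool) : Prop :=
  ∃ B : Vl → PrgV P,
    (∀ s : Vl, (∀ f, s.j f < r) → (∀ f, s.k f < U) → ∀ F, InSc P bj bk F →
      (B s).wf ar1 F = true) ∧
    ∀ x a e s v, GoodArr x a → Rl P r U x e s v → Emits (x.length + 2) a (B s) e (G x v)

variable {bj bk : Fam → Bool} {φ ψ : List Bool → Vl → Prop} {G H : List Bool → Vl → List Bool}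

/-- The bounds for the values. -/
def Bd (P : Pr) (r U : ℕ) (x : List Bool) (v : Vl) : Prop :=
  (∀ f, v.j f < mX P r x) ∧ ∀ f, v.k f < mX P U x

theorem Rl.bd {x : List Bool} {e : P.V → ℕ} {s v : Vl} (h : Rl P r U x e s v) : Bd P r U x v :=
  ⟨h.j_lt, h.k_lt⟩

theorem Dp.congr (h : Dp P r U bj bk φ) (hq : ∀ x v, Bd P r U x v → (φ x v ↔ ψ x v)) :
    Dp P r U bj bk ψ := by
  obtain ⟨B, h1, h2⟩ := h
  exact ⟨B, h1, fun x a e s v ha hr => (h2 x a e s v ha hr).trans (hq x v hr.bd)⟩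

theorem Pg.congr (h : Pg P r U bj bk G) (hq : ∀ x v, Bd P r U x v → G x v = H x v) :
    Pg P r U bj bk H := by
  obtain ⟨B, h1, h2⟩ := h
  exact ⟨B, h1, fun x a e s v ha hr => hq x v hr.bd ▸ h2 x a e s v ha hr⟩

theorem Dp.not (h : Dp P r U bj bk φ) : Dp P r U bj bk fun x v => ¬ φ x v := by
  obtain ⟨B, h1, h2⟩ := h
  exact ⟨fun s => .not (B s), h1, fun x a e s v ha hr => by
    rw [Fml.eval_not, h2 x a e s v ha hr]⟩

theorem Dp.and (h : Dp P r U bj bk φ) (h' : Dp P r U bj bk ψ) :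
    Dp P r U bj bk fun x v => φ x v ∧ ψ x v := by
  obtain ⟨B, h1, h2⟩ := h
  obtain ⟨C, h3, h4⟩ := h'
  exact ⟨fun s => .and (B s) (C s), fun s hj hk F hF => wf_and (h1 s hj hk F hF)
    (h3 s hj hk F hF), fun x a e s v ha hr => by
    rw [Fml.eval_and, h2 x a e s v ha hr, h4 x a e s v ha hr]⟩

theorem Dp.or (h : Dp P r U bj bk φ) (h' : Dp P r U bj bk ψ) :
    Dp P r U bj bk fun x v => φ x v ∨ ψ x v :=
  ((h.not).and h'.not).not.congr fun x v _ => by tauto

theorem Dp.tru : Dp P r U bj bk fun _ _ => True :=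
  ⟨fun _ => tt0, fun s _ _ F hF => wf_tt0 hF.scope, fun x a e s v _ _ => by simp [eval_tt0]⟩

theorem Dp.const (p : Prop) : Dp P r U bj bk fun _ _ => p := by
  by_cases hp : p
  · exact Dp.tru.congr fun x v _ => by simp [hp]
  · exact Dp.tru.not.congr fun x v _ => by simp [hp]

/-- The values of all families in an environment. -/
def vals (P : Pr) (r U : ℕ) (s : Vl) (x : List Bool) (e : P.V → ℕ) : Vl :=
  ⟨fun f => nJ P r f (s.j f) x e, fun f => nK P U f (s.k f) x e⟩

theorem Dp.of_Df (Fs : List P.V) (hFs : ∀ y ∈ Fs, (∃ f, bj f = true ∧ y ∈ P.vJ f) ∨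
      ∃ f, bk f = true ∧ y ∈ P.vI f)
    (h : ∀ s : Vl, (∀ f, s.j f < r) → (∀ f, s.k f < U) →
      Df Fs fun x e => φ x (vals P r U s x e)) : Dp P r U bj bk φ := by
  have h' : ∀ s : Vl, ∃ B : Fml P.V Unit, (∀ f, s.j f < r) → (∀ f, s.k f < U) →
      (∀ F', Scope F' → (∀ y ∈ Fs, y ∈ F') → B.wf ar1 F' = true) ∧
      ∀ (x : List Bool) (a : Arr Unit) (e : P.V → ℕ), GoodArr x a →
        (∀ y, e y < x.length + 2) → (B.eval (x.length + 2) a e = true ↔
          φ x (vals P r U s x e)) := by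
    intro s
    by_cases hs : (∀ f, s.j f < r) ∧ ∀ f, s.k f < U
    · obtain ⟨B, hB⟩ := h s hs.1 hs.2
      exact ⟨B, fun _ _ => hB⟩
    · exact ⟨tt0, fun h1 h2 => absurd ⟨h1, h2⟩ hs⟩
  choose B hB using h'
  refine ⟨B, fun s hj hk F hF => (hB s hj hk).1 F hF.scope fun y hy => (hF y).2 (hFs y hy),
    fun x a e s v ha hr => ?_⟩
  rw [(hB s hr.sj hr.sk).2 x a e ha hr.lt]
  have : vals P r U s x e = v := Vl.ext (funext hr.j) (funext hr.k)
  rw [this]

/-! ### Comparison of values -/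

theorem Dp.ltJ {f g : Fam} (hfg : f ≠ g) (hf : bj f = true) (hg : bj g = true) :
    Dp P r U bj bk fun _ v => v.j f < v.j g := by
  refine Dp.of_Df (P.vJ f ++ P.vJ g) (fun y hy => ?_) fun s hj hk => ?_
  · rcases List.mem_append.1 hy with hy | hy
    · exact Or.inl ⟨f, hf, hy⟩
    · exact Or.inl ⟨g, hg, hy⟩
  · exact Df.ltJ (hj f) (hj g) hfg (fun y hy => by simp [hy]) (fun y hy => by simp [hy])

theorem Dp.eqJ {f g : Fam} (hfg : f ≠ g) (hf : bj f = true) (hg : bj g = true) :
    Dp P r U bj bk fun _ v => v.j f = v.j g := by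
  refine Dp.of_Df (P.vJ f ++ P.vJ g) (fun y hy => ?_) fun s hj hk => ?_
  · rcases List.mem_append.1 hy with hy | hy
    · exact Or.inl ⟨f, hf, hy⟩
    · exact Or.inl ⟨g, hg, hy⟩
  · exact Df.eqJ (hj f) (hj g) hfg (fun y hy => by simp [hy]) (fun y hy => by simp [hy])

theorem Dp.ltK {f g : Fam} (hfg : f ≠ g) (hf : bk f = true) (hg : bk g = true) :
    Dp P r U bj bk fun _ v => v.k f < v.k g := by
  refine Dp.of_Df (P.vI f ++ P.vI g) (fun y hy => ?_) fun s hj hk => ?_
  · rcases List.mem_append.1 hy with hy | hy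
    · exact Or.inr ⟨f, hf, hy⟩
    · exact Or.inr ⟨g, hg, hy⟩
  · exact Df.ltT (sim_dK hfg) (good_dK f (hk f)) (good_dK g (hk g))
      (inS_dK fun y hy => by simp [hy]) (inS_dK fun y hy => by simp [hy])

theorem Dp.zeroK {f : Fam} (hf : bk f = true) :
    Dp P r U bj bk fun _ v => v.k f = 0 := by
  refine Dp.of_Df (P.vI f) (fun y hy => Or.inr ⟨f, hf, hy⟩) fun s hj hk => ?_
  exact Df.zeroK (hk f) fun y hy => hy

theorem Dp.maxK {f : Fam} (hf : bk f = true) :
    Dp P r U bj bk fun x v => v.k f + 1 = mX P U x := by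
  refine Dp.of_Df (P.vI f) (fun y hy => Or.inr ⟨f, hf, hy⟩) fun s hj hk => ?_
  exact (Df.maxT (dvar_dK f) (good_dK f (hk f)) (inS_dK fun y hy => hy)).congr
    fun x e _ => by rw [radP_dK]; rfl

theorem Dp.lst {K : Type} {Γ : K → Type} {S : Type} {cd : VT K Γ S ≃ Fin U}
    {cs : List (Sc K Γ S)} (hr : r = (sc4 cs).length + U) {f g : Fam} (hf : bj f = true)
    (hg : bk g = true) (b : Bool) :
    Dp P r U bj bk fun x v => lstN P cd cs x (v.j f) (v.k g) b := by
  subst hr
  refine Dp.of_Df (P.vJ f ++ P.vI g) (fun y hy => ?_) fun s hj hk => ?_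
  · rcases List.mem_append.1 hy with hy | hy
    · exact Or.inl ⟨f, hf, hy⟩
    · exact Or.inr ⟨g, hg, hy⟩
  · exact Df.lst (hj f) (hk g) (fun y hy => by simp [hy]) (fun y hy => by simp [hy]) b

/-! ### Programs -/

theorem Pg.skip : Pg P r U bj bk fun _ _ => [] :=
  ⟨fun _ => .skip, fun _ _ _ _ _ => rfl, fun _ _ _ _ _ _ _ => Emits.skip⟩

theorem Pg.bit (b : Bool) : Pg P r U bj bk fun _ _ => [b] :=
  ⟨fun _ => .emit (cst b), fun _ _ _ _ hF => wf_cst hF.scope b, fun x a e s v _ _ => by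
    have := Emits.emit (N := x.length + 2) (a := a) (e := e) (cst b : Fml P.V Unit)
    rwa [eval_cst] at this⟩

theorem Pg.seq (h : Pg P r U bj bk G) (h' : Pg P r U bj bk H) :
    Pg P r U bj bk fun x v => G x v ++ H x v := by
  obtain ⟨B, h1, h2⟩ := h
  obtain ⟨C, h3, h4⟩ := h'
  exact ⟨fun s => .seq (B s) (C s), fun s hj hk F hF => by
    simp only [Stmt.wf, Bool.and_eq_true]
    exact ⟨h1 s hj hk F hF, h3 s hj hk F hF⟩,
    fun x a e s v ha hr => (h2 x a e s v ha hr).seq (h4 x a e s v ha hr)⟩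

open Classical in
theorem Pg.ite (hp : Dp P r U bj bk φ) (h : Pg P r U bj bk G) (h' : Pg P r U bj bk H) :
    Pg P r U bj bk fun x v => if φ x v then G x v else H x v := by
  obtain ⟨A, h5, h6⟩ := hp
  obtain ⟨B, h1, h2⟩ := h
  obtain ⟨C, h3, h4⟩ := h'
  refine ⟨fun s => .ite (.fml (A s)) (B s) (C s), fun s hj hk F hF => ?_,
    fun x a e s v ha hr => ?_⟩
  · simp only [Stmt.wf, Cond.wf, Bool.and_eq_true]
    exact ⟨⟨h5 s hj hk F hF, h1 s hj hk F hF⟩, h3 s hj hk F hF⟩
  · have := emits_ite (l1 := G x v) (l2 := H x v) (h6 x a e s v ha hr)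
      (fun _ => h2 x a e s v ha hr) (fun _ => h4 x a e s v ha hr)
    simpa using this

/-- Loop over a clause index. -/
theorem Pg.loopJ (f : Fam) (hf : bj f = false) (h : Pg P r U (update bj f true) bk G) :
    Pg P r U bj bk fun x v => (List.range (mX P r x)).flatMap fun t => G x (v.sJ f t) := by
  obtain ⟨B, h1, h2⟩ := h
  refine ⟨fun s => enumP (.inl r :: spx (P.vJ f)) fun ds => match consts ds with
    | [σ] => B (s.sJ f σ)
    | _ => .skip, fun s hj hk F hF => ?_, fun x a e s v ha hr => ?_⟩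
  · refine wf_enumP _ (by rw [vars, vars_spx]; exact P.vJ_nodup _)
      (by rw [vars, vars_spx]; exact hF.freshJ hf) _ fun ds hds => ?_
    cases hds with
    | c _ σ hσ _ ds hds =>
      rw [shape_spx hds]
      simp only [consts, consts_dx, vars, vars_spx]
      refine h1 (s.sJ f σ) (fun g => ?_) hk _ (hF.addJ f)
      rw [Vl.sJ_j]
      split_ifs
      · exact hσ
      · exact hj g
  · have key := Emits.enum (N := x.length + 2) (a := a) (.inl r :: spx (P.vJ f))
      (by rw [vars, vars_spx]; exact P.vJ_nodup _)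
      (fun ds => match consts ds with
        | [σ] => B (s.sJ f σ)
        | _ => .skip) e (fun t => G x (v.sJ f t)) (by
        intro ds e' hs k1 k2
        cases hs with
        | c _ σ hσ _ ds hs =>
          rw [shape_spx hs]
          rw [vars, vars_spx] at k1 k2
          simp only [consts, consts_dx]
          refine h2 x a e' _ _ ha (hr.stepJ f hσ k1 fun y => ?_)
          by_cases hy : y ∈ P.vJ f
          · exact k2 y hy
          · rw [k1 y hy]
            exact hr.lt y)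
    rw [radS, radS_spx, P.vJ_length, pow_add] at key
    exact key

/-- Loop over a variable index. -/
theorem Pg.loopK (f : Fam) (hf : bk f = false) (h : Pg P r U bj (update bk f true) G) :
    Pg P r U bj bk fun x v => (List.range (mX P U x)).flatMap fun t => G x (v.sK f t) := by
  obtain ⟨B, h1, h2⟩ := h
  refine ⟨fun s => enumP (.inl U :: spx (P.vI f)) fun ds => match consts ds with
    | [σ] => B (s.sK f σ)
    | _ => .skip, fun s hj hk F hF => ?_, fun x a e s v ha hr => ?_⟩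
  · refine wf_enumP _ (by rw [vars, vars_spx]; exact P.vI_nodup _)
      (by rw [vars, vars_spx]; exact hF.freshK hf) _ fun ds hds => ?_
    cases hds with
    | c _ σ hσ _ ds hds =>
      rw [shape_spx hds]
      simp only [consts, consts_dx, vars, vars_spx]
      refine h1 (s.sK f σ) hj (fun g => ?_) _ (hF.addK f)
      rw [Vl.sK_k]
      split_ifs
      · exact hσ
      · exact hk g
  · have key := Emits.enum (N := x.length + 2) (a := a) (.inl U :: spx (P.vI f))
      (by rw [vars, vars_spx]; exact P.vI_nodup _)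
      (fun ds => match consts ds with
        | [σ] => B (s.sK f σ)
        | _ => .skip) e (fun t => G x (v.sK f t)) (by
        intro ds e' hs k1 k2
        cases hs with
        | c _ σ hσ _ ds hs =>
          rw [shape_spx hs]
          rw [vars, vars_spx] at k1 k2
          simp only [consts, consts_dx]
          refine h2 x a e' _ _ ha (hr.stepK f hσ k1 fun y => ?_)
          by_cases hy : y ∈ P.vI f
          · exact k2 y hy
          · rw [k1 y hy]
            exact hr.lt y)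
    rw [radS, radS_spx, P.vI_length, pow_add] at key
    exact key

/-- A closed word is written by a closed program. -/
theorem Pg.prog (hr : 0 < r) (hU : 0 < U) (h : Pg P r U (fun _ => false) (fun _ => false) G) :
    ∃ B : PrgV P, B.wf ar1 [] = true ∧ ∀ x a, GoodArr x a →
      ∃ v, Bd P r U x v ∧ Emits (x.length + 2) a B (fun _ => 0) (G x v) := by
  obtain ⟨B, h1, h2⟩ := h
  refine ⟨B ⟨fun _ => 0, fun _ => 0⟩, h1 _ (fun _ => hr) (fun _ => hU) [] ?_,
    fun x a ha => ?_⟩
  · intro y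
    simp
  · have hR : Rl P r U x (fun _ => 0) ⟨fun _ => 0, fun _ => 0⟩
        (vals P r U ⟨fun _ => 0, fun _ => 0⟩ x fun _ => 0) :=
      ⟨fun _ => by simp, fun _ => hr, fun _ => hU, fun _ => rfl, fun _ => rfl⟩
    exact ⟨_, hR.bd, h2 x a _ _ _ ha hR⟩

end Pool.Agent.Lib.MP_b347ba_lc_h74
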