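import Pool.Agent.Lib.MP_b347ba_lc_h74.Corr
import Pool.Agent.Lib.MP_a950c6_lc.Hard

/-!
# Rotation systems of formulas, written by a program in polynomial time
-/

namespace Pool.Agent.Lib.MP_b347ba_lc_h74

set_option linter.unusedSectionVars false
set_option linter.unusedSimpArgs false

open Pool.Agent.Lib.PolyTM Pool.Agent.Lib.PolyTM.Tab Function Turing
open Pool.Agent.Lib.MP_75fd85_lc (Pn sc4 clauses mem_clauses idx_lt InNP Halts InP ar1)
open Pool.Agent.Lib.MP_a950c6_lc Pool.MP_b347ba_lc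

open Classical in
/-- The clauses of the formula. -/
noncomputable def clB {K : Type} {Γ : K → Type} {S : Type} {U : ℕ} (P : Pr)
    (cd : VT K Γ S ≃ Fin U) (cs : List (Sc K Γ S)) (x : List Bool)
    (j : Fin (mX P ((sc4 cs).length + U) x)) : Finset (Lit (mX P U x)) :=
  Finset.univ.filter fun q => lstN P cd cs x j.val q.1.val q.2

theorem mem_clB {K : Type} {Γ : K → Type} {S : Type} {U : ℕ} {P : Pr}
    {cd : VT K Γ S ≃ Fin U} {cs : List (Sc K Γ S)} {x : List Bool}
    (j : Fin (mX P ((sc4 cs).length + U) x)) (k : Fin (mX P U x)) (b : Bool) :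
    (k, b) ∈ clB P cd cs x j ↔ lstN P cd cs x j.val k.val b := by
  classical
  simp [clB]

theorem sat_clB {K : Type} {Γ : K → Type} {S : Type} {U : ℕ} {P : Pr}
    {cd : VT K Γ S ≃ Fin U} {cs : List (Sc K Γ S)} {x : List Bool} :
    Sat (clB P cd cs x) ↔
      MP_75fd85_lc.Satisfiable (clauses cd cs ((x.length + 2) ^ P.D) (amP P x)) := by
  rw [← satB_iff]
  constructor
  · rintro ⟨α, hα⟩
    refine ⟨α, fun j => ?_⟩
    obtain ⟨⟨k, b⟩, h1, h2⟩ := hα j
    exact ⟨(k, b), (lstB_iff _ _ _).2 ((mem_clB _ _ _).1 h1), h2⟩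
  · rintro ⟨α, hα⟩
    refine ⟨α, fun j => ?_⟩
    obtain ⟨⟨k, b⟩, h1, h2⟩ := hα j
    exact ⟨(k, b), (mem_clB _ _ _).2 ((lstB_iff _ _ _).1 h1), h2⟩

/-- The words of the reduction are written by a program. -/
theorem prog_exists {K : Type} {Γ : K → Type} {S : Type} {U : ℕ} (P : Pr)
    (cd : VT K Γ S ≃ Fin U) (cs : List (Sc K Γ S)) (hU : 0 < U) :
    ∃ S' : PrgV P, S'.wf ar1 [] = true ∧ ∀ x : List Bool,
      ∃ (n m : ℕ) (cl : Fin m → Finset (Lit n)), 0 < n ∧
        S'.out (fun _ => true) (fun (_ : Unit) b => some b) (x ++ [true, true]) =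
          codeL (.P :: .Q :: (lvs n m).map .x) (satRot cl) ∧
        (Sat cl ↔
          MP_75fd85_lc.Satisfiable (clauses cd cs ((x.length + 2) ^ P.D) (amP P x))) := by
  classical
  set r := (sc4 cs).length + U with hr
  obtain ⟨B, wB, eB⟩ := Pg.prog (P := P) (by omega) hU (pg_WN (cd := cd) (cs := cs) hr)
  refine ⟨B, wB, fun x => ?_⟩
  set N := x.length + 2 with hN
  have hNpos : 0 < N := by omega
  have hT : 0 < N ^ P.D * N ^ P.D := by positivity
  have hn : 0 < mX P U x := Nat.mul_pos hU hT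
  have hm : 0 < mX P r x := Nat.mul_pos (by omega) hT
  refine ⟨mX P U x, mX P r x, clB P cd cs x, hn, ?_, sat_clB⟩
  rw [codeL_word hm hn (fun c k b => mem_clB c k b)]
  have hcnt : (x ++ [true, true]).countP (fun _ => true) = N := by simp [hN]
  unfold Stmt.out
  rw [hcnt]
  have hg : GoodArr x (iniArr N (fun (_ : Unit) b => some b) (x ++ [true, true])) :=
    fun t _ => MP_75fd85_lc.iniArr_one _ _ _
  obtain ⟨v, -, key⟩ := eB x _ hg
  have h3 := key []
  rw [h3]
  simp

end Pool.Agent.Lib.MP_b347ba_lc_h74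

namespace Pool.MP_b347ba_lc

set_option linter.unusedSectionVars false
set_option linter.unusedSimpArgs false

open Pool.Agent.Lib
open Pool.Agent.Lib.PolyTM Pool.Agent.Lib.PolyTM.Tab Function Turing
open Pool.Agent.Lib.MP_75fd85_lc (Pn sc4 clauses mem_clauses idx_lt InNP Halts InP ar1)
open Pool.Agent.Lib.MP_a950c6_lc (Pr amP)

/-- Every language in NP reduces in polynomial time to the realizability of rotation systems of
formulas. -/
theorem program (L : Set (List Bool)) (hL : InNP L) :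
    ∃ f : List Bool → List Bool, PolyFun f ∧ ∀ x, ∃ (n m : ℕ) (cl : Fin m → Finset (Lit n)),
      0 < n ∧ f x = codeL (.P :: .Q :: (lvs n m).map .x) (satRot cl) ∧ (x ∈ L ↔ Sat cl) := by
  classical
  obtain ⟨R, ⟨MV, pV, hfin, hR⟩, ⟨q, hq⟩, hLR⟩ := hL
  let tm := MV.tm
  let _ : Fintype tm.K := tm.kFin
  let _ : Fintype tm.σ := tm.σFin
  let _ : ∀ k, Fintype (tm.Γ k) := fun k => by
    have := hfin k
    exact Fintype.ofFinite _
  let S := Micro.MS tm.m
  let act : S → Act tm.K tm.Γ S := Micro.act tm.m tm.k₁ (MV.outputAlphabet.invFun true)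
  let start : S := Micro.mk tm.m (tm.m tm.main) tm.initialState
  let acc : S := .inr true
  let rej : S := .inr false
  let g : Bool ⊕ Bool → tm.Γ tm.k₀ := MV.inputAlphabet.invFun
  let cs := schemes act start rej tm.k₀ g
  let U := Fintype.card (VT tm.K tm.Γ S)
  let cd : VT tm.K tm.Γ S ≃ Fin U := Fintype.equivFin _
  have hU : 0 < U := Fintype.card_pos_iff.2 ⟨VT.dm true⟩
  let C := ∑ l : tm.Λ, Micro.depth (tm.m l)
  obtain ⟨m2, hm2⟩ := MP_75fd85_lc.poly_pow_bound (q + Polynomial.X)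
  obtain ⟨m1, hm1⟩ := MP_75fd85_lc.poly_pow_bound
    ((C : Polynomial ℕ) * pV.comp (Polynomial.X ^ (m2 + 1)) + 1)
  let P : Pr := ⟨m1 + 1, m2⟩
  have hPD : P.D = (m1 + 1) + m2 + 2 := rfl
  obtain ⟨S', wS, hS⟩ := MP_b347ba_lc_h74.prog_exists P cd cs hU
  refine ⟨S'.out (fun _ => true) (fun (_ : Unit) b => some b) ∘
    MP_75fd85_lc.padS.out (fun _ => true) (fun (_ : Unit) b => some b),
    (MP_75fd85_lc.polyFun_out _ wS).comp
      (MP_75fd85_lc.polyFun_out _ MP_75fd85_lc.padS_wf), fun x => ?_⟩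
  set N := x.length + 2 with hN
  have hN2 : 2 ≤ N := by omega
  have hNpos : 0 < N := by omega
  -- sizes
  have b1 : q.eval x.length + x.length ≤ N ^ (m2 + 1) := by
    have h1 := hm2 N hN2
    simp only [Polynomial.eval_add, Polynomial.eval_X] at h1
    have h2 : q.eval x.length ≤ q.eval N := poly_mono q (by omega)
    have h3 : N ^ m2 ≤ N ^ (m2 + 1) := Nat.pow_le_pow_right hNpos (by omega)
    omega
  have b2 : C * pV.eval (N ^ (m2 + 1)) + 1 ≤ Pn N P.D := by
    have h1 := hm1 N hN2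
    simp only [Polynomial.eval_add, Polynomial.eval_mul, Polynomial.eval_natCast,
      Polynomial.eval_comp, Polynomial.eval_pow, Polynomial.eval_X, Polynomial.eval_one] at h1
    refine h1.trans ?_
    rw [Pn]
    have h2 : N ^ m1 ≤ N ^ (P.D - 1) := Nat.pow_le_pow_right hNpos (by
      rw [hPD]; omega)
    have h3 : 1 * N ^ (P.D - 1) ≤ (N - 1) * N ^ (P.D - 1) := Nat.mul_le_mul_right _ (by omega)
    omega
  have b3 : Pn N P.D + N ^ (P.m2 + 1) < N ^ P.D := by
    have h2 : N ^ (P.m2 + 1) < N ^ (P.D - 1) := Nat.pow_lt_pow_right (by omega) (by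
      rw [hPD]; change m2 + 1 < _; omega)
    have h3 : N ^ P.D = N * N ^ (P.D - 1) := by
      rw [← pow_succ', Nat.sub_add_cancel (by rw [hPD]; omega)]
    rw [Pn, h3]
    have h4 : (N - 1) * N ^ (P.D - 1) + 1 * N ^ (P.D - 1) = N * N ^ (P.D - 1) := by
      rw [← Nat.add_mul, Nat.sub_add_cancel (by omega)]
    omega
  have b6 : 0 < N ^ P.D := pow_pos hNpos _
  -- the verifier
  have hrun : ∀ y : List Bool, Pn N P.D + x.length + y.length ≤ Pn N P.D + N ^ (P.m2 + 1) →
      ∃ stk, ∃ n ≤ Pn N P.D, ∀ n' ≥ n, run act start tm.k₀ g x y n' =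
        ⟨if decide (x.map Sum.inl ++ y.map Sum.inr ∈ R) then acc else rej, stk⟩ := by
    intro y hy
    have hw : Halts MV (x.map Sum.inl ++ y.map Sum.inr)
        [decide (x.map Sum.inl ++ y.map Sum.inr ∈ R)]
        (pV.eval (x.map Sum.inl ++ y.map Sum.inr).length) := by
      by_cases h : x.map Sum.inl ++ y.map Sum.inr ∈ R
      · rw [decide_eq_true h]; exact (hR _).1 h
      · rw [decide_eq_false h]; exact (hR _).2 h
    obtain ⟨stk, n, hn, hrun⟩ := MP_75fd85_lc.verifier_run MV x y _ _ hw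
    refine ⟨stk, n, ?_, hrun⟩
    have h1 : pV.eval (x.map (Sum.inl : Bool → Bool ⊕ Bool) ++ y.map Sum.inr).length ≤
        pV.eval (N ^ (m2 + 1)) := by
      refine poly_mono pV ?_
      simp only [List.length_append, List.length_map]
      change Pn N P.D + x.length + y.length ≤ Pn N P.D + N ^ (m2 + 1) at hy
      omega
    have h2 := Nat.mul_le_mul_left C h1
    exact hn.trans ((Nat.add_le_add_right h2 1).trans b2)
  -- satisfiability
  have hsat : MP_75fd85_lc.Satisfiable (clauses cd cs (N ^ P.D) (amP P x)) ↔ x ∈ L := by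
    rw [hLR]
    constructor
    · intro hs
      obtain ⟨α, hα⟩ := MP_75fd85_lc.satBy_of_satisfiable hs
      obtain ⟨y, -, hy⟩ := Tab.sound (acc := acc) (rej := rej)
        (fun y => decide (x.map Sum.inl ++ y.map Sum.inr ∈ R))
        (by have := b1; change _ ≤ Pn N P.D + N ^ (m2 + 1); omega) b3 le_rfl hrun hα
      exact ⟨y, of_decide_eq_true hy⟩
    · rintro ⟨y, hy⟩
      have hyl := hq x y hy
      have hlen : Pn N P.D + x.length + y.length ≤ Pn N P.D + N ^ (P.m2 + 1) := by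
        change _ ≤ Pn N P.D + N ^ (m2 + 1)
        omega
      obtain ⟨stk, hv⟩ := hrun y hlen
      rw [decide_eq_true hy] at hv
      have hj : act rej = .jump rej := rfl
      have hne : acc ≠ rej := fun h => absurd (Sum.inr.inj h) (by simp)
      exact MP_75fd85_lc.satisfiable_of_satBy b6 (Tab.complete hj hne le_rfl hlen hv)
  obtain ⟨n, m, cl, h1, h2, h3⟩ := hS x
  refine ⟨n, m, cl, h1, ?_, ?_⟩
  · rw [Function.comp_apply, MP_75fd85_lc.padS_out, h2]
  · rw [h3, hsat]

end Pool.MP_b347ba_lc
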