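import Pool.Agent.Lib.MP_b347ba_lc_h74.Num

/-!
# The word of the rotation system of a formula, written with numbers
-/

namespace Pool.Agent.Lib.MP_b347ba_lc_h74

set_option linter.unusedSectionVars false
set_option linter.unusedSimpArgs false

open Pool.Agent.Lib.PolyTM Pool.Agent.Lib.PolyTM.Tab Function
open Pool.Agent.Lib.MP_a950c6_lc

/-- Kinds of inner vertices. -/
inductive VK
  | wa | wb | z2 | t | mm | s | r | z1 | ua | ub

/-- Size of a family with two clauses and a literal. -/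
def A3 (m n : ℕ) : ℕ := m * (m * (2 * n))
/-- Size of a family with a clause and a literal. -/
def A2 (m n : ℕ) : ℕ := m * (2 * n)

/-- Position of the first vertex of a kind. -/
def base (m n : ℕ) : VK → ℕ
  | .wa => 0
  | .wb => A3 m n
  | .z2 => A3 m n + A3 m n
  | .t => A3 m n + A3 m n + 1
  | .mm => A3 m n + A3 m n + 1 + A3 m n
  | .s => A3 m n + A3 m n + 1 + A3 m n + A3 m n
  | .r => A3 m n + A3 m n + 1 + A3 m n + A3 m n + A2 m n
  | .z1 => A3 m n + A3 m n + 1 + A3 m n + A3 m n + A2 m n + A2 m n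
  | .ua => A3 m n + A3 m n + 1 + A3 m n + A3 m n + A2 m n + A2 m n + 1
  | .ub => A3 m n + A3 m n + 1 + A3 m n + A3 m n + A2 m n + A2 m n + 1 + A2 m n

/-- Number of inner vertices. -/
def tot (m n : ℕ) : ℕ :=
  A3 m n + A3 m n + 1 + A3 m n + A3 m n + A2 m n + A2 m n + 1 + A2 m n + A2 m n

/-- Number of vertices of a kind. -/
def size (m n : ℕ) : VK → ℕ
  | .wa | .wb | .t | .mm => A3 m n
  | .z2 | .z1 => 1
  | .s | .r | .ua | .ub => A2 m n

/-- Number of vertices after a kind. -/
def rest (m n : ℕ) : VK → ℕ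
  | .wa => A3 m n + 1 + A3 m n + A3 m n + A2 m n + A2 m n + 1 + A2 m n + A2 m n
  | .wb => 1 + A3 m n + A3 m n + A2 m n + A2 m n + 1 + A2 m n + A2 m n
  | .z2 => A3 m n + A3 m n + A2 m n + A2 m n + 1 + A2 m n + A2 m n
  | .t => A3 m n + A2 m n + A2 m n + 1 + A2 m n + A2 m n
  | .mm => A2 m n + A2 m n + 1 + A2 m n + A2 m n
  | .s => A2 m n + 1 + A2 m n + A2 m n
  | .r => 1 + A2 m n + A2 m n
  | .z1 => A2 m n + A2 m n
  | .ua => A2 m n
  | .ub => 0

theorem base_size_rest (m n : ℕ) (κ : VK) : base m n κ + size m n κ + rest m n κ = tot m n := by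
  cases κ <;> simp only [base, size, rest, tot] <;> omega

/-- Position of a vertex within its kind. -/
def off (m n : ℕ) : VK → ℕ → ℕ → ℕ → Bool → ℕ
  | .wa, c, c', k, b | .wb, c, c', k, b | .t, c, c', k, b | .mm, c, c', k, b =>
      c * (m * (2 * n)) + (c' * (2 * n) + (2 * k + b.toNat))
  | .z2, _, _, _, _ | .z1, _, _, _, _ => 0
  | .s, c, _, k, b | .r, c, _, k, b | .ua, c, _, k, b | .ub, c, _, k, b =>
      c * (2 * n) + (2 * k + b.toNat)

/-- Position of a vertex within its kind, counted from the end, starting with one. -/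
def ffo (m n : ℕ) : VK → ℕ → ℕ → ℕ → Bool → ℕ
  | .wa, c, c', k, b | .wb, c, c', k, b | .t, c, c', k, b | .mm, c, c', k, b =>
      (m - 1 - c) * (m * (2 * n)) + ((m - 1 - c') * (2 * n) + (2 * (n - 1 - k) + (2 - b.toNat)))
  | .z2, _, _, _, _ | .z1, _, _, _, _ => 1
  | .s, c, _, k, b | .r, c, _, k, b | .ua, c, _, k, b | .ub, c, _, k, b =>
      (m - 1 - c) * (2 * n) + (2 * (n - 1 - k) + (2 - b.toNat))

theorem off_aux {n k : ℕ} (hk : k < n) (b : Bool) :
    (2 * k + b.toNat) + (2 * (n - 1 - k) + (2 - b.toNat)) = 2 * n := by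
  cases b <;> simp <;> omega

theorem off_aux2 {m B c i i' : ℕ} (hc : c < m) (h : i + i' = B) :
    (c * B + i) + ((m - 1 - c) * B + i') = m * B := by
  obtain ⟨d, rfl⟩ : ∃ d, m = c + 1 + d := ⟨m - c - 1, by omega⟩
  rw [show c + 1 + d - 1 - c = d by omega, ← h]
  ring

theorem off_add_ffo {m n c c' k : ℕ} (hc : c < m) (hc' : c' < m) (hk : k < n) (κ : VK)
    (b : Bool) : off m n κ c c' k b + ffo m n κ c c' k b = size m n κ := by
  have h1 := off_aux2 (B := 2 * n) hc (off_aux hk b)
  have h2 := off_aux2 (B := m * (2 * n)) hc (off_aux2 (B := 2 * n) hc' (off_aux hk b))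
  cases κ <;> first | exact h2 | exact h1 | rfl

/-- An entry of a list of neighbours. -/
def ent (i : ℕ) : List Bool := true :: (List.replicate i true ++ [false])

/-- The entry of an inner vertex. -/
def E (m n : ℕ) (κ : VK) (c c' k : ℕ) (b : Bool) : List Bool :=
  ent (2 + (base m n κ + off m n κ c c' k b))

/-- The clauses different from `c`, in decreasing order. -/
def desc (m c : ℕ) (g : ℕ → List Bool) : List Bool :=
  ((List.range m).flatMap fun y => if c < y then g (m + c - y) else []) ++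
    (List.range m).flatMap fun y => if y < c then g (c - 1 - y) else []

/-- Successor of a literal. -/
def nxN (n k : ℕ) (b : Bool) : ℕ := if b = true then (k + 1) % n else k
/-- Predecessor of a literal. -/
def pvN (n k : ℕ) (b : Bool) : ℕ := if b = true then k else (k + (n - 1)) % n

open Classical in
/-- The word of an inner vertex. -/
noncomputable def wd (m n : ℕ) (lst : ℕ → ℕ → Bool → Prop) :
    VK → ℕ → ℕ → ℕ → Bool → List Bool
  | .wa, c, c', k, b => (if c = c' then [] else E m n .t c' c k (!b) ++ E m n .ua c 0 k b) ++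
      (ent 1 ++ (ent 0 ++ [false]))
  | .wb, c, c', k, b => (if c = c' then [] else E m n .mm c c' k b ++ (E m n .ub c 0 k b ++
      E m n .t c c' k b)) ++ (ent 1 ++ (ent 0 ++ [false]))
  | .z2, _, _, _, _ => ent 1 ++ (ent 0 ++ [false])
  | .t, c, c', k, b => ent 1 ++ ((if c = c' then [] else E m n .wa c' c k (!b) ++
      E m n .wb c c' k b) ++ (ent 0 ++ [false]))
  | .mm, c, c', k, b => (if c = c' then [] else E m n .ua c 0 k b) ++ (ent 1 ++
      ((if c = c' then [] else E m n .wb c c' k b) ++ (ent 0 ++ [false])))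
  | .s, c, _, k, b => E m n .ub c 0 k b ++ (E m n .ua c 0 (nxN n k b) (!b) ++
      (ent 1 ++ (ent 0 ++ [false])))
  | .r, c, _, k, b => (if lst c k b then [] else E m n .ua c 0 k b ++ E m n .ub c 0 k b) ++
      (ent 1 ++ (ent 0 ++ [false]))
  | .z1, _, _, _, _ => ent 1 ++ (ent 0 ++ [false])
  | .ua, c, _, k, b => ent 1 ++ ((if lst c k b then [] else E m n .r c 0 k b) ++
      (desc m c (fun c' => E m n .mm c c' k b ++ E m n .wa c c' k b) ++
      (E m n .s c 0 (pvN n k b) (!b) ++ (ent 0 ++ [false]))))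
  | .ub, c, _, k, b => ent 1 ++ (E m n .s c 0 k b ++ (desc m c (fun c' => E m n .wb c c' k b) ++
      ((if lst c k b then [] else E m n .r c 0 k b) ++ (ent 0 ++ [false]))))

/-- Run through two clause indices and the literals. -/
def f3 (m n : ℕ) (g : ℕ → ℕ → ℕ → Bool → List Bool) : List Bool :=
  (List.range m).flatMap fun c => (List.range m).flatMap fun c' =>
    (List.range n).flatMap fun k => g c c' k false ++ g c c' k true
/-- Run through a clause index and the literals. -/
def f2 (m n : ℕ) (g : ℕ → ℕ → Bool → List Bool) : List Bool :=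
  (List.range m).flatMap fun c => (List.range n).flatMap fun k => g c k false ++ g c k true

/-- Run through all inner vertices. -/
def en (m n : ℕ) (G : VK → ℕ → ℕ → ℕ → Bool → List Bool) : List Bool :=
  f3 m n (G .wa) ++ (f3 m n (G .wb) ++ (G .z2 0 0 0 false ++ (f3 m n (G .t) ++
    (f3 m n (G .mm) ++ (f2 m n (fun c k b => G .s c 0 k b) ++
    (f2 m n (fun c k b => G .r c 0 k b) ++ (G .z1 0 0 0 false ++
    (f2 m n (fun c k b => G .ua c 0 k b) ++ f2 m n (fun c k b => G .ub c 0 k b)))))))))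

/-- The word. -/
noncomputable def WN (m n : ℕ) (lst : ℕ → ℕ → Bool → Prop) : List Bool :=
  List.replicate (2 + tot m n) true ++ (false ::
    ((en m n (fun κ c c' k b => ent (1 + (rest m n κ + ffo m n κ c c' k b))) ++
      (ent 1 ++ [false])) ++
    ((en m n (fun κ c c' k b => E m n κ c c' k b) ++ (ent 0 ++ [false])) ++
      en m n (wd m n lst))))

/-! ### Programs -/

variable {P : Pr} {r U : ℕ} {bj bk : Fam → Bool}

theorem Nu.A3 (ha : Aux bj bk) : Nu P r U bj bk fun x _ => A3 (mX P r x) (mX P U x) :=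
  Nu.mmTwoN ha

theorem Nu.A2 (ha : Aux bj bk) : Nu P r U bj bk fun x _ => A2 (mX P r x) (mX P U x) :=
  Nu.mTwoN ha.j3 ha.k2

theorem Nu.base (ha : Aux bj bk) (κ : VK) :
    Nu P r U bj bk fun x _ => base (mX P r x) (mX P U x) κ := by
  have h3 := Nu.A3 (P := P) (r := r) (U := U) ha
  have h2 := Nu.A2 (P := P) (r := r) (U := U) ha
  have h1 := Nu.const (P := P) (r := r) (U := U) (bj := bj) (bk := bk) 1
  have e1 := (h3.add h3).add h1
  have e2 := e1.add h3
  have e3 := e2.add h3
  have e4 := e3.add h2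
  have e5 := e4.add h2
  have e6 := e5.add h1
  cases κ
  · exact Nu.const 0
  · exact h3
  · exact h3.add h3
  · exact e1
  · exact e2
  · exact e3
  · exact e4
  · exact e5
  · exact e6
  · exact e6.add h2

theorem Nu.tot (ha : Aux bj bk) :
    Nu P r U bj bk fun x _ => tot (mX P r x) (mX P U x) :=
  (Nu.base ha .ub).add (Nu.A2 ha)

theorem Nu.rest (ha : Aux bj bk) (κ : VK) :
    Nu P r U bj bk fun x _ => rest (mX P r x) (mX P U x) κ := by
  have h3 := Nu.A3 (P := P) (r := r) (U := U) ha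
  have h2 := Nu.A2 (P := P) (r := r) (U := U) ha
  have h1 := Nu.const (P := P) (r := r) (U := U) (bj := bj) (bk := bk) 1
  cases κ
  · exact (((((((h3.add h1).add h3).add h3).add h2).add h2).add h1).add h2).add h2
  · exact ((((((h1.add h3).add h3).add h2).add h2).add h1).add h2).add h2
  · exact (((((h3.add h3).add h2).add h2).add h1).add h2).add h2
  · exact ((((h3.add h2).add h2).add h1).add h2).add h2
  · exact (((h2.add h2).add h1).add h2).add h2
  · exact ((h2.add h1).add h2).add h2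
  · exact (h1.add h2).add h2
  · exact h2.add h2
  · exact h2
  · exact Nu.const 0

variable {T T' S : List Bool → Vl → ℕ}

theorem Nu.off3 (hT : JT P r U bj bk T) (hT' : JT P r U bj bk T') (hS : KT P r U bj bk S)
    (d : ℕ) : Nu P r U bj bk fun x v => T x v * (mX P r x * (2 * mX P U x)) +
      (T' x v * (2 * mX P U x) + (2 * S x v + d)) :=
  hT.big.add (hT'.small.add (Nu.add hS (Nu.const d)))

theorem Nu.off2 (hT : JT P r U bj bk T) (hS : KT P r U bj bk S)
    (d : ℕ) : Nu P r U bj bk fun x v => T x v * (2 * mX P U x) + (2 * S x v + d) :=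
  hT.small.add (Nu.add hS (Nu.const d))

theorem Nu.off (hT : JT P r U bj bk T) (hT' : JT P r U bj bk T') (hS : KT P r U bj bk S)
    (κ : VK) (b : Bool) :
    Nu P r U bj bk fun x v => off (mX P r x) (mX P U x) κ (T x v) (T' x v) (S x v) b := by
  cases κ <;> first | exact Nu.off3 hT hT' hS _ | exact Nu.off2 hT hS _ | exact Nu.const 0

theorem Nu.ffo {f g h : Fam} (ha : Aux bj bk) (hf : bj f = true) (hg : bj g = true)
    (hh : bk h = true) (κ : VK) (b : Bool) :
    Nu P r U bj bk fun x v => ffo (mX P r x) (mX P U x) κ (v.j f) (v.j g) (v.k h) b := by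
  have hT := JT.above (P := P) (r := r) (U := U) ha hf
  have hT' := JT.above (P := P) (r := r) (U := U) ha hg
  have hS := KT.above (P := P) (r := r) (U := U) ha hh
  cases κ <;> first | exact Nu.off3 hT hT' hS _ | exact Nu.off2 hT hS _ | exact Nu.const 1

theorem nuFfo2 {f h : Fam} (ha : Aux bj bk) (hf : bj f = true)
    (hh : bk h = true) {κ : VK} (hκ : κ = .s ∨ κ = .r ∨ κ = .ua ∨ κ = .ub) (b : Bool) :
    Nu P r U bj bk fun x v => ffo (mX P r x) (mX P U x) κ (v.j f) 0 (v.k h) b := by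
  have hT := JT.above (P := P) (r := r) (U := U) ha hf
  have hS := KT.above (P := P) (r := r) (U := U) ha hh
  rcases hκ with rfl | rfl | rfl | rfl <;> exact Nu.off2 hT hS _

theorem Pg.ent {g : List Bool → Vl → ℕ} (h : Nu P r U bj bk g) :
    Pg P r U bj bk fun x v => ent (g x v) :=
  ((Pg.bit true).seq (Pg.seq h (Pg.bit false))).congr fun _ _ _ => rfl

theorem Pg.E (ha : Aux bj bk) (hT : JT P r U bj bk T) (hT' : JT P r U bj bk T')
    (hS : KT P r U bj bk S) (κ : VK) (b : Bool) :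
    Pg P r U bj bk fun x v => E (mX P r x) (mX P U x) κ (T x v) (T' x v) (S x v) b :=
  Pg.ent ((Nu.const 2).add ((Nu.base ha κ).add (Nu.off hT hT' hS κ b)))

theorem pgEnt0 : Pg P r U bj bk fun _ _ => ent 0 := Pg.ent (Nu.const 0)
theorem pgEnt1 : Pg P r U bj bk fun _ _ => ent 1 := Pg.ent (Nu.const 1)

/-- Nothing in scope. -/
abbrev o : Fam → Bool := fun _ => false
abbrev o1 : Fam → Bool := update o a0 true
abbrev o2 : Fam → Bool := update o1 a1 true

theorem aux0 : Aux o o := ⟨rfl, rfl, rfl⟩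
theorem aux1 : Aux o1 o1 := ⟨by decide, by decide, by decide⟩
theorem aux2 : Aux o2 o1 := ⟨by decide, by decide, by decide⟩

theorem Pg.f3 {g : List Bool → ℕ → ℕ → ℕ → Bool → List Bool}
    (h : ∀ b, Pg P r U o2 o1 fun x v => g x (v.j a0) (v.j a1) (v.k a0) b) :
    Pg P r U o o fun x _ => f3 (mX P r x) (mX P U x) (g x) :=
  (Pg.loopJ a0 rfl (Pg.loopJ a1 (by decide) (Pg.loopK a0 rfl ((h false).seq (h true))))).congr
    fun x v _ => by
      simp [MP_b347ba_lc_h74.f3]

theorem Pg.f2 {g : List Bool → ℕ → ℕ → Bool → List Bool}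
    (h : ∀ b, Pg P r U o1 o1 fun x v => g x (v.j a0) (v.k a0) b) :
    Pg P r U o o fun x _ => f2 (mX P r x) (mX P U x) (g x) :=
  (Pg.loopJ a0 rfl (Pg.loopK a0 rfl ((h false).seq (h true)))).congr
    fun x v _ => by
      simp [MP_b347ba_lc_h74.f2]

theorem Pg.en {G : List Bool → VK → ℕ → ℕ → ℕ → Bool → List Bool}
    (h3 : ∀ κ b, κ = .wa ∨ κ = .wb ∨ κ = .t ∨ κ = .mm →
      Pg P r U o2 o1 fun x v => G x κ (v.j a0) (v.j a1) (v.k a0) b)
    (h2 : ∀ κ b, κ = .s ∨ κ = .r ∨ κ = .ua ∨ κ = .ub →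
      Pg P r U o1 o1 fun x v => G x κ (v.j a0) 0 (v.k a0) b)
    (h1 : ∀ κ, κ = .z1 ∨ κ = .z2 → Pg P r U o o fun x _ => G x κ 0 0 0 false) :
    Pg P r U o o fun x _ => en (mX P r x) (mX P U x) (G x) :=
  (Pg.f3 fun b => h3 .wa b (by simp)).seq ((Pg.f3 fun b => h3 .wb b (by simp)).seq
    ((h1 .z2 (by simp)).seq ((Pg.f3 fun b => h3 .t b (by simp)).seq
    ((Pg.f3 fun b => h3 .mm b (by simp)).seq ((Pg.f2 fun b => h2 .s b (by simp)).seq
    ((Pg.f2 fun b => h2 .r b (by simp)).seq ((h1 .z1 (by simp)).seq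
    ((Pg.f2 fun b => h2 .ua b (by simp)).seq (Pg.f2 fun b => h2 .ub b (by simp))))))))))

end Pool.Agent.Lib.MP_b347ba_lc_h74
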