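import Pool.Agent.Lib.MP_b347ba_lc_h74.WordN

/-!
# A program writing the word
-/

namespace Pool.Agent.Lib.MP_b347ba_lc_h74

set_option linter.unusedSectionVars false
set_option linter.unusedSimpArgs false

open Pool.Agent.Lib.PolyTM Pool.Agent.Lib.PolyTM.Tab Function
open Pool.Agent.Lib.MP_75fd85_lc (Sc4 sc4)
open Pool.Agent.Lib.MP_a950c6_lc

variable {P : Pr} {r U : ℕ}

theorem Pg.desc {g : List Bool → ℕ → ℕ → ℕ → List Bool}
    (hg : ∀ T', JT P r U o2 o1 T' →
      Pg P r U o2 o1 fun x v => g x (v.j a0) (T' x v) (v.k a0)) :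
    Pg P r U o1 o1 fun x v => desc (mX P r x) (v.j a0) fun c' => g x (v.j a0) c' (v.k a0) := by
  classical
  have h1 := Pg.loopJ a1 (by decide) (Pg.ite (Dp.ltJ (P := P) (r := r) (U := U) (bj := o2)
    (bk := o1) (f := a0) (g := a1) (by decide) (by decide) (by decide))
    (hg _ (JT.refl1 aux2 (f := a0) (g := a1) (by decide) (by decide))) Pg.skip)
  have h2 := Pg.loopJ a1 (by decide) (Pg.ite (Dp.ltJ (P := P) (r := r) (U := U) (bj := o2)
    (bk := o1) (f := a1) (g := a0) (by decide) (by decide) (by decide))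
    (hg _ (JT.refl2 aux2 (f := a0) (g := a1) (by decide) (by decide))) Pg.skip)
  refine (h1.seq h2).congr fun x v _ => ?_
  unfold MP_b347ba_lc_h74.desc
  congr 1
  · refine List.flatMap_congr fun y _ => ?_
    simp only [Vl.sJ_j, Vl.sJ_k, if_pos, show ¬(a0 = a1) by decide, if_false]
  · refine List.flatMap_congr fun y _ => ?_
    simp only [Vl.sJ_j, Vl.sJ_k, if_pos, show ¬(a0 = a1) by decide, if_false]

theorem Pg.ite_nil {bj bk : Fam → Bool} {φ : List Bool → Vl → Prop}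
    {G : List Bool → Vl → List Bool} (hp : Dp P r U bj bk φ) (h : Pg P r U bj bk G)
    [∀ x v, Decidable (φ x v)] :
    Pg P r U bj bk fun x v => if φ x v then [] else G x v := by
  classical
  exact (Pg.ite hp Pg.skip h).congr fun x v _ => by congr

theorem pg_tail {bj bk : Fam → Bool} : Pg P r U bj bk fun _ _ => ent 0 ++ [false] :=
  pgEnt0.seq (Pg.bit false)

theorem pg_tail1 {bj bk : Fam → Bool} : Pg P r U bj bk fun _ _ => ent 1 ++ (ent 0 ++ [false]) :=
  pgEnt1.seq pg_tail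

section

variable {K : Type} {Γ : K → Type} {S : Type} {cd : VT K Γ S ≃ Fin U} {cs : List (Sc K Γ S)}

theorem pg_wd3 (κ : VK) (b : Bool) (hκ : κ = .wa ∨ κ = .wb ∨ κ = .t ∨ κ = .mm) :
    Pg P r U o2 o1 fun x v => wd (mX P r x) (mX P U x) (lstN P cd cs x) κ (v.j a0) (v.j a1)
      (v.k a0) b := by
  classical
  have j0 := JT.var (P := P) (r := r) (U := U) aux2 (f := a0) (by decide)
  have j1 := JT.var (P := P) (r := r) (U := U) aux2 (f := a1) (by decide)
  have k0 := KT.var (P := P) (r := r) (U := U) aux2 (f := a0) (by decide)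
  have z : JT P r U o2 o1 fun _ _ => 0 := JT.zero
  have he := Dp.eqJ (P := P) (r := r) (U := U) (bj := o2) (bk := o1) (f := a0) (g := a1)
    (by decide) (by decide) (by decide)
  rcases hκ with rfl | rfl | rfl | rfl
  · exact (Pg.ite_nil he ((Pg.E aux2 j1 j0 k0 .t (!b)).seq (Pg.E aux2 j0 z k0 .ua b))).seq
      pg_tail1
  · exact (Pg.ite_nil he ((Pg.E aux2 j0 j1 k0 .mm b).seq ((Pg.E aux2 j0 z k0 .ub b).seq
      (Pg.E aux2 j0 j1 k0 .t b)))).seq pg_tail1
  · exact pgEnt1.seq ((Pg.ite_nil he ((Pg.E aux2 j1 j0 k0 .wa (!b)).seq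
      (Pg.E aux2 j0 j1 k0 .wb b))).seq pg_tail)
  · exact (Pg.ite_nil he (Pg.E aux2 j0 z k0 .ua b)).seq (pgEnt1.seq
      ((Pg.ite_nil he (Pg.E aux2 j0 j1 k0 .wb b)).seq pg_tail))

theorem pg_wd2 (hr : r = (sc4 cs).length + U) (κ : VK) (b : Bool)
    (hκ : κ = .s ∨ κ = .r ∨ κ = .ua ∨ κ = .ub) :
    Pg P r U o1 o1 fun x v => wd (mX P r x) (mX P U x) (lstN P cd cs x) κ (v.j a0) 0
      (v.k a0) b := by
  classical
  have j0 := JT.var (P := P) (r := r) (U := U) aux1 (f := a0) (by decide)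
  have k0 := KT.var (P := P) (r := r) (U := U) aux1 (f := a0) (by decide)
  have z : JT P r U o1 o1 fun _ _ => 0 := JT.zero
  have j0' := JT.var (P := P) (r := r) (U := U) aux2 (f := a0) (by decide)
  have k0' := KT.var (P := P) (r := r) (U := U) aux2 (f := a0) (by decide)
  have he := Dp.lst (P := P) (r := r) (U := U) (cd := cd) (cs := cs) (bj := o1) (bk := o1)
    (f := a0) (g := a0) hr (by decide) (by decide) b
  have kn : KT P r U o1 o1 fun x v => nxN (mX P U x) (v.k a0) b := by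
    cases b
    · exact k0
    · exact KT.nxt aux1 (by decide)
  have kp : KT P r U o1 o1 fun x v => pvN (mX P U x) (v.k a0) b := by
    cases b
    · exact KT.prv aux1 (by decide)
    · exact k0
  rcases hκ with rfl | rfl | rfl | rfl
  · exact (Pg.E aux1 j0 z k0 .ub b).seq ((Pg.E aux1 j0 z kn .ua (!b)).seq pg_tail1)
  · exact (Pg.ite_nil he ((Pg.E aux1 j0 z k0 .ua b).seq (Pg.E aux1 j0 z k0 .ub b))).seq pg_tail1
  · have hd := Pg.desc (P := P) (r := r) (U := U) (g := fun x c c' k =>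
      E (mX P r x) (mX P U x) .mm c c' k b ++ E (mX P r x) (mX P U x) .wa c c' k b)
      fun T' hT' => (Pg.E aux2 j0' hT' k0' .mm b).seq (Pg.E aux2 j0' hT' k0' .wa b)
    exact pgEnt1.seq ((Pg.ite_nil he (Pg.E aux1 j0 z k0 .r b)).seq (hd.seq
      ((Pg.E aux1 j0 z kp .s (!b)).seq pg_tail)))
  · have hd := Pg.desc (P := P) (r := r) (U := U) (g := fun x c c' k =>
      E (mX P r x) (mX P U x) .wb c c' k b)
      fun T' hT' => Pg.E aux2 j0' hT' k0' .wb b
    exact pgEnt1.seq ((Pg.E aux1 j0 z k0 .s b).seq (hd.seq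
      ((Pg.ite_nil he (Pg.E aux1 j0 z k0 .r b)).seq pg_tail)))

/-- The word is written by a program. -/
theorem pg_WN (hr : r = (sc4 cs).length + U) :
    Pg P r U o o fun x _ => WN (mX P r x) (mX P U x) (lstN P cd cs x) := by
  classical
  have a0' := aux0
  have j00 := JT.var (P := P) (r := r) (U := U) aux1 (f := a0) (by decide)
  have k00 := KT.var (P := P) (r := r) (U := U) aux1 (f := a0) (by decide)
  have j0 := JT.var (P := P) (r := r) (U := U) aux2 (f := a0) (by decide)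
  have j1 := JT.var (P := P) (r := r) (U := U) aux2 (f := a1) (by decide)
  have k0 := KT.var (P := P) (r := r) (U := U) aux2 (f := a0) (by decide)
  have zj : ∀ {bj bk : Fam → Bool}, JT P r U bj bk fun _ _ => 0 := JT.zero
  have zk : ∀ {bj bk : Fam → Bool}, KT P r U bj bk fun _ _ => 0 := KT.zero
  refine (Pg.seq (Nu.add (Nu.const 2) (Nu.tot aux0)) (Pg.seq (Pg.bit false) (Pg.seq
    (Pg.seq (Pg.en (G := fun x κ c c' k b => ent (1 + (rest (mX P r x) (mX P U x) κ +
      ffo (mX P r x) (mX P U x) κ c c' k b))) ?_ ?_ ?_) (Pg.seq pgEnt1 (Pg.bit false)))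
    (Pg.seq (Pg.seq (Pg.en (G := fun x κ c c' k b => E (mX P r x) (mX P U x) κ c c' k b)
      ?_ ?_ ?_) pg_tail)
      (Pg.en (G := fun x => wd (mX P r x) (mX P U x) (lstN P cd cs x)) ?_ ?_ ?_))))).congr
      fun x v _ => ?_
  · intro κ b _
    exact Pg.ent (Nu.add (Nu.const 1) (Nu.add (Nu.rest aux2 κ)
      (Nu.ffo aux2 (by decide) (by decide) (by decide) κ b)))
  · intro κ b hκ
    exact Pg.ent (Nu.add (Nu.const 1) (Nu.add (Nu.rest aux1 κ)
      (nuFfo2 aux1 (by decide) (by decide) hκ b)))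
  · rintro κ (rfl | rfl)
    · exact Pg.ent (Nu.add (Nu.const 1) (Nu.add (Nu.rest aux0 .z1) (Nu.const 1)))
    · exact Pg.ent (Nu.add (Nu.const 1) (Nu.add (Nu.rest aux0 .z2) (Nu.const 1)))
  · intro κ b _
    exact Pg.E aux2 j0 j1 k0 κ b
  · intro κ b _
    exact Pg.E aux1 j00 zj k00 κ b
  · intro κ _
    exact Pg.E aux0 zj zj zk κ false
  · intro κ b hκ
    exact pg_wd3 κ b hκ
  · intro κ b hκ
    exact pg_wd2 hr κ b hκ
  · rintro κ (rfl | rfl)
    · exact pg_tail1
    · exact pg_tail1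
  · rfl

end

end Pool.Agent.Lib.MP_b347ba_lc_h74
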